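import Mathlib
import Pool.Agent.Work.MP_12b649_co.Kotzig

/-!
# Derangement representations, even order: definitions
-/

namespace Pool.Agent.Work.MP_12b649_co.Even

open Pool.Agent.Work.MP_12b649_co

/-- `H` (the graph of agreements, the complement of `G`) is represented by permutations of `N`
points: distinct `u, v` are adjacent in `H` iff `π u` and `π v` agree somewhere. -/
def Rep {V : Type} (H : SimpleGraph V) (N : ℕ) : Prop :=
  ∃ π : V → Equiv.Perm (Fin N), Function.Injective π ∧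
    ∀ u v, u ≠ v → (H.Adj u v ↔ ∃ i, π u i = π v i)

/-- Exactly one of `p`, `q` is adjacent to `v`. -/
def Dd {V : Type} (H : SimpleGraph V) (p q v : V) : Prop := ¬ (H.Adj p v ↔ H.Adj q v)

/-- The state of a vertex in the prolongation: `D` displaced at the edge to the star symbol,
`U` undisplaced, `S` displaced at its single cell. -/
inductive St | D | U | S
deriving DecidableEq

/-- Symbol of the fat vertex (`none`) and of the other vertices. -/
def pos {X W : Type} (s1 : X) (ψ : W → X) : Option W → X := fun a => a.elim s1 ψ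

/-- A Kotzig factorization with a good pair `x 0`, `x (L-1)`: the pairs of neighbours of
`s1 = x 0` are `{x a, x (a+1)}` with `a` odd, the pairs of neighbours of `s2 = x (L-1)` are
`{x a, x (a+1)}` with `a` even, `a + 2 < L`, or with `a` odd, `L ≤ a`. -/
def Good {N : ℕ} (K : Kotzig N) (L : ℕ) (x : ℕ → K.V) : Prop :=
  Odd L ∧ 5 ≤ L ∧ L ≤ N ∧ (∀ a b, a < N → b < N → x a = x b → a = b) ∧
  (∀ j, ∃ a, Odd a ∧ a + 1 < N ∧
    ((K.f j (x 0) = x a ∧ (K.f j).symm (x 0) = x (a + 1)) ∨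
     (K.f j (x 0) = x (a + 1) ∧ (K.f j).symm (x 0) = x a))) ∧
  (∀ j, ∃ a, ((Even a ∧ a + 2 < L) ∨ (Odd a ∧ L ≤ a ∧ a + 1 < N)) ∧
    ((K.f j (x (L - 1)) = x a ∧ (K.f j).symm (x (L - 1)) = x (a + 1)) ∨
     (K.f j (x (L - 1)) = x (a + 1) ∧ (K.f j).symm (x (L - 1)) = x a)))

/-- A configuration for the double merge. -/
structure T2 {V : Type} (H : SimpleGraph V) (p1 q1 p2 q2 v : V) : Prop where
  adj1 : H.Adj p1 q1
  adj2 : H.Adj p2 q2
  n1 : p1 ≠ p2
  n2 : p1 ≠ q2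
  n3 : q1 ≠ p2
  n4 : q1 ≠ q2
  v1 : v ≠ p1
  v2 : v ≠ q1
  v3 : v ≠ p2
  v4 : v ≠ q2
  cross : Dd H p1 q1 p2 ↔ Dd H p1 q1 q2
  nt1 : ∃ w, w ≠ p1 ∧ w ≠ q1 ∧ Dd H p1 q1 w
  nt2 : ∃ w, w ≠ p2 ∧ w ≠ q2 ∧ Dd H p2 q2 w
  bad : ¬ ((Dd H p1 q1 v ↔ Dd H p2 q2 v) ↔ (Dd H p1 q1 p2 ↔ Dd H p2 q2 p1))

/-- There is no configuration for the double merge. -/
def NoT2 {V : Type} (H : SimpleGraph V) : Prop := ∀ p1 q1 p2 q2 v, ¬ T2 H p1 q1 p2 q2 v

/-- Closed twins. -/
def Tw {V : Type} (H : SimpleGraph V) (u v : V) : Prop :=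
  H.Adj u v ∧ ∀ w, w ≠ u → w ≠ v → (H.Adj u w ↔ H.Adj v w)

/-- No induced cycle of length four. -/
def NoC4 {V : Type} (H : SimpleGraph V) : Prop :=
  ∀ a b c d, H.Adj a b → H.Adj b c → H.Adj c d → H.Adj d a → a ≠ c → b ≠ d →
    (H.Adj a c ∨ H.Adj b d)

/-- Disjoint union of cliques. -/
def Cluster {V : Type} (H : SimpleGraph V) : Prop :=
  ∀ a b c, H.Adj a b → H.Adj b c → a ≠ c → H.Adj a c

/-- Configuration Z: `W = N(x) - x'` is a clique containing `N(x') - x`; an edge `p q` outside,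
not both in `W`, with exactly one end in `W` or distinguished by an outside vertex. -/
structure Zc {V : Type} (H : SimpleGraph V) (x x' p q : V) : Prop where
  ne : x ≠ x'
  clique : ∀ a b, H.Adj x a → H.Adj x b → a ≠ x' → b ≠ x' → a ≠ b → H.Adj a b
  sub : ∀ v, v ≠ x → H.Adj x' v → H.Adj x v
  adj : H.Adj p q
  px : p ≠ x
  px' : p ≠ x'
  qx : q ≠ x
  qx' : q ≠ x'
  notboth : ¬ (H.Adj x p ∧ H.Adj x q)
  nt : ¬ (H.Adj x p ↔ H.Adj x q) ∨ ∃ t, t ≠ x ∧ t ≠ x' ∧ t ≠ p ∧ t ≠ q ∧ Dd H p q t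

/-- Configuration TR: three closed twins `p, p', p''`, a neighbour `q`, a neighbour `g` of `p`
not adjacent to `q`, another vertex `h` adjacent to exactly one of `p, q` and a vertex `e` which
is not. -/
structure TRc {V : Type} (H : SimpleGraph V) (p p' p'' q g h e : V) : Prop where
  tw1 : Tw H p p'
  tw2 : Tw H p p''
  pp : p' ≠ p''
  adj : H.Adj p q
  qp' : q ≠ p'
  qp'' : q ≠ p''
  gp : H.Adj g p
  gq : ¬ H.Adj g q
  gq' : g ≠ q
  gp' : g ≠ p'
  gp'' : g ≠ p''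
  gh : g ≠ h
  h1 : h ≠ p
  h2 : h ≠ p'
  h3 : h ≠ p''
  h4 : h ≠ q
  dh : Dd H p q h
  e1 : e ≠ p
  e2 : e ≠ p'
  e3 : e ≠ p''
  e4 : e ≠ q
  de : ¬ Dd H p q e

/-- Complete bipartite or tripartite graph plus at most one isolated vertex. -/
def AffC {V : Type} (H : SimpleGraph V) (c : V → Fin 4) : Prop :=
  (∀ u v, H.Adj u v ↔ (c u ≠ c v ∧ c u ≠ 3 ∧ c v ≠ 3)) ∧
  (∀ u v, c u = 3 → c v = 3 → u = v)

/-- Complete graph minus the edge `a b`. -/
def KEc {V : Type} (H : SimpleGraph V) (a b : V) : Prop :=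
  a ≠ b ∧ ∀ u v, H.Adj u v ↔ (u ≠ v ∧ ¬ (u = a ∧ v = b) ∧ ¬ (u = b ∧ v = a))

/-- Adjacency in the Petersen graph: outer cycle `0,…,4`, inner vertices `5,…,9`. -/
def petAdj (a b : Fin 10) : Bool :=
  let e : ℕ → ℕ → Bool := fun a b =>
    (a < 5 && b < 5 && b == (a + 1) % 5) || (a < 5 && b == a + 5) ||
    (5 ≤ a && 5 ≤ b && b == 5 + (a - 5 + 2) % 5)
  e a.val b.val || e b.val a.val

/-- The graph with the vertices of the Petersen graph doubled, plus an isolated vertex. -/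
def bigAdj (a b : Option (Fin 10 × Bool)) : Bool :=
  match a, b with
  | some (u, s), some (v, t) => (u == v && s != t) || petAdj u v
  | _, _ => false

/-- `H` is an induced subgraph of the doubled Petersen graph plus an isolated vertex. -/
def PetB {V : Type} (H : SimpleGraph V) : Prop :=
  ∃ f : V → Option (Fin 10 × Bool), Function.Injective f ∧
    ∀ u v, H.Adj u v ↔ bigAdj (f u) (f v) = true

/-- `H` is an induced subgraph of the Petersen graph. -/
def PetE {V : Type} (H : SimpleGraph V) : Prop :=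
  ∃ f : V → Fin 10, Function.Injective f ∧ ∀ u v, H.Adj u v ↔ petAdj (f u) (f v) = true

/-- Two leaves with a common neighbour. -/
def O1 {V : Type} (H : SimpleGraph V) (z z' a : V) : Prop :=
  z ≠ z' ∧ (∀ v, H.Adj z v ↔ v = a) ∧ (∀ v, H.Adj z' v ↔ v = a)

/-- A leaf `z` whose neighbour `b` has degree two, the other neighbour is `v`. -/
def O2 {V : Type} (H : SimpleGraph V) (z b v : V) : Prop :=
  z ≠ v ∧ (∀ w, H.Adj z w ↔ w = b) ∧ (∀ w, H.Adj b w ↔ (w = z ∨ w = v))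

end Pool.Agent.Work.MP_12b649_co.Even
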