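import Pool.Agent.Work.MP_12b649_co.Even.Defs

/-!
# Derangement representations, even order: statements of the items, part 1 (constructions)
-/

namespace Pool.Agent.Work.MP_12b649_co.Even

open Pool.Agent.Work.MP_12b649_co

/-- RAW: a placement `φ` of the vertices on the symbols and signs `τ` give a representation. -/
def S_RAW : Prop :=
  ∀ (N : ℕ) (K : Kotzig N) (V : Type) (H : SimpleGraph V) (φ : V → K.V) (τ : K.J → V → Bool),
    (∀ u v, u ≠ v → φ u = φ v → H.Adj u v) →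
    (∀ j u v, K.f j (φ u) = φ v → (τ j u ≠ τ j v ↔ H.Adj u v)) →
    (∀ u v, u ≠ v → φ u = φ v → ∃ j, τ j u ≠ τ j v) → Rep H N

/-- STAR: the prolongation at the symbol `o`. -/
def S_STAR : Prop :=
  ∀ (N : ℕ) (K : Kotzig N) (V : Type) (H : SimpleGraph V) (o : K.V) (φ : V → K.V)
    (τ : K.J → V → Bool) (st : V → St),
    (∀ a, φ a = o → st a ≠ St.D) →
    (∀ a b, a ≠ b → φ a = φ b → φ a ≠ o → H.Adj a b) →
    (∀ a b, φ a = φ b → φ a ≠ o → st a = St.S → st b ≠ St.S → ∃ j, τ j a = τ j b) →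
    (∀ j a b, K.f j (φ a) = φ b → φ a ≠ o → φ b ≠ o → (τ j a ≠ τ j b ↔ H.Adj a b)) →
    (∀ j a b, K.f j (φ a) = o → K.f j o = φ b → st a = St.D → st b = St.D → ¬ H.Adj a b →
      τ j a = τ j b) →
    (∀ a b, a ≠ b → st a = St.U → st b = St.U → H.Adj a b) →
    (∀ a b, a ≠ b → st a = St.S → st b = St.S → H.Adj a b) →
    (∀ a b, st a = St.D → st b = St.S → K.col (φ a) o = K.col (φ b) (φ b) → H.Adj a b) →
    (∀ a b, a ≠ b → φ a = o → φ b = o → (H.Adj a b ↔ (st a = st b ∨ ∃ j, τ j a = τ j b))) →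
    (∀ a b, φ a = o → φ b ≠ o → (H.Adj a b ↔ (st a = st b ∨
      (st b ≠ St.D ∧ ∃ j, (K.f j o = φ b ∨ K.f j (φ b) = o) ∧ τ j a ≠ τ j b)))) →
    (∀ a b, a ≠ b → φ a = φ b → st a = st b → ∃ j, τ j a ≠ τ j b) → Rep H (N + 1)

/-- CORE: positions and signs for the prolongation.  `none` stands for the fat vertex on `s1`. -/
def S_CORE : Prop :=
  ∀ (N : ℕ) (K : Kotzig N) (W : Type) [Fintype W], 5 ≤ N → Fintype.card W + 3 = N →
    ∀ (D : W → Prop) (g h : W), g ≠ h → (D g ↔ D h) →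
    ∀ (R : Option W → Option W → Prop) (C : W → W → Prop),
    ∃ (o s1 o2 : K.V) (ψ : W → K.V) (ε : K.J → Bool) (σ : K.J → K.V → Bool),
      o ≠ s1 ∧ o2 ≠ s1 ∧ o2 ≠ o ∧ Function.Injective ψ ∧
      (∀ w, ψ w ≠ o) ∧ (∀ w, ψ w ≠ s1) ∧ (∀ w, ψ w ≠ o2) ∧
      (∀ w, K.col o (ψ w) = K.col s1 s1 → w = g) ∧
      (∀ j w, (K.f j s1 = ψ w ∨ K.f j (ψ w) = s1) → (D w ↔ ε j = true)) ∧
      (∀ j, K.f j s1 = o → K.f j o = o2) ∧ (∀ j, K.f j o = s1 → K.f j o2 = o) ∧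
      (∀ j a b, K.f j (pos s1 ψ a) = pos s1 ψ b →
        (σ j (pos s1 ψ a) ≠ σ j (pos s1 ψ b) ↔ R a b)) ∧
      (∀ j a b, K.f j (ψ a) = o → K.f j o = ψ b → (σ j (ψ a) ≠ σ j (ψ b) ↔ C a b))

/-- Z: the configuration with one more column and a pair of almost twins. -/
def S_Z : Prop := ∀ (N : ℕ) (_ : Kotzig N) (V : Type) [Fintype V] (H : SimpleGraph V)
    (x x' p q : V), 7 ≤ N → Fintype.card V = N + 1 → Zc H x x' p q → Rep H (N + 1)

/-- TR: three closed twins. -/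
def S_TR : Prop := ∀ (N : ℕ) (_ : Kotzig N) (V : Type) [Fintype V] (H : SimpleGraph V)
    (p p' p'' q g h e : V), 7 ≤ N → Fintype.card V = N + 1 → TRc H p p' p'' q g h e →
    Rep H (N + 1)

/-- AFF: complete bipartite or tripartite graphs with an isolated vertex. -/
def S_AFF : Prop := ∀ (M : ℕ) (V : Type) [Fintype V] (H : SimpleGraph V) (c : V → Fin 4),
    Nat.Coprime M 6 → 5 ≤ M → AffC H c →
    (∀ i : Fin 4, (Finset.univ.filter (fun v => c v = i)).card ≤ M) → Rep H (M + 1)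

/-- BIP: complete bipartite graphs. -/
def S_BIP : Prop := ∀ (M : ℕ) (V : Type) [Fintype V] (H : SimpleGraph V) (c : V → Bool),
    Odd M → 3 ≤ M → (∀ u v, H.Adj u v ↔ c u ≠ c v) →
    (∀ i : Bool, (Finset.univ.filter (fun v => c v = i)).card ≤ M) → Rep H M

/-- KE: the complete graph minus an edge. -/
def S_KE : Prop := ∀ (n : ℕ) (V : Type) [Fintype V] (H : SimpleGraph V) (a b : V),
    Fintype.card V = n → 4 ≤ n → KEc H a b → Rep H n

/-- PETB: the certificate for the doubled Petersen graph plus an isolated vertex. -/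
def S_PETB : Prop := ∀ (V : Type) (H : SimpleGraph V), PetB H → Rep H 8

/-- GOOD: good Kotzig factorizations exist. -/
def S_GOODP : Prop := ∀ p : ℕ, p.Prime → 5 ≤ p → ∃ (K : Kotzig p) (x : ℕ → K.V), Good K p x

def S_GOOD9 : Prop := ∃ (K : Kotzig 9) (x : ℕ → K.V), Good K 9 x

def S_GOODX : Prop := ∀ (d p : ℕ) (_ : Kotzig d), p.Prime → Odd p → Odd d → 5 ≤ d →
    ∃ (K : Kotzig (d * p)) (x : ℕ → K.V), Good K (2 * p - 1) x

def S_GOOD : Prop := ∀ N : ℕ, Odd N → 5 ≤ N → ∃ (K : Kotzig N) (L : ℕ) (x : ℕ → K.V), Good K L x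

/-- WORD: the order of the types. -/
def S_WORD : Prop :=
  ∀ (N L : ℕ) (W : Type) [Fintype W], Fintype.card W + 3 = N → Odd N → Odd L → 5 ≤ L → L ≤ N →
    ∀ (D1 D2 : W → Prop) (ε1 ε2 : Prop) (w0 : W),
    ¬ ((D1 w0 ↔ D2 w0) ↔ (ε1 ↔ ε2)) →
    ∃ y : W → ℕ, Function.Injective y ∧ (∀ w, 1 ≤ y w ∧ y w < N ∧ y w ≠ L - 1) ∧
      (∀ w w', Odd (y w) → y w' = y w + 1 → (D1 w ↔ D1 w')) ∧
      (∀ w, y w + 2 = L → (D1 w ↔ ε1)) ∧
      (∀ w w', Even (y w) → y w + 2 < L → y w' = y w + 1 → (D2 w ↔ D2 w')) ∧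
      (∀ w, y w = 1 → (D2 w ↔ ε2)) ∧
      (∀ w w', Odd (y w) → L ≤ y w → y w' = y w + 1 → (D2 w ↔ D2 w'))

/-- T2: the double merge. -/
def S_T2 : Prop := ∀ (N L : ℕ) (K : Kotzig N) (x : ℕ → K.V), Good K L x →
    ∀ (V : Type) [Fintype V] (H : SimpleGraph V) (p1 q1 p2 q2 v : V),
    Fintype.card V = N + 1 → T2 H p1 q1 p2 q2 v → Rep H N

end Pool.Agent.Work.MP_12b649_co.Even
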