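import Pool.Agent.Work.MP_12b649_co.Even.Rules

/-!
# Derangement representations, even order: statements of the items, part 2 (structure)

`NoT2 H` throughout; the rules `e2k2, ec4, ek4, opaw` of `Rules.lean` are the only way it is used.
-/

namespace Pool.Agent.Work.MP_12b649_co.Even

/-! ## An induced `C_4` -/

/-- C4: the component of an induced `C_4` is complete bipartite or tripartite, nothing else is
attached to it. -/
def S_C4 : Prop := ∀ (V : Type) (H : SimpleGraph V) (a1 b1 a2 b2 : V), NoT2 H →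
    H.Adj a1 b1 → H.Adj b1 a2 → H.Adj a2 b2 → H.Adj b2 a1 → a1 ≠ a2 → b1 ≠ b2 →
    ¬ H.Adj a1 a2 → ¬ H.Adj b1 b2 →
    ∃ c : V → Fin 4, c a1 = 0 ∧ c a2 = 0 ∧ c b1 = 1 ∧ c b2 = 1 ∧
      (∀ u v, c u ≠ 3 → c v ≠ 3 → (H.Adj u v ↔ c u ≠ c v)) ∧
      (∀ u v, c u ≠ 3 → c v = 3 → ¬ H.Adj u v)

/-- OCL: outside the component of a non-twin edge there are only cliques. -/
def S_OCL : Prop := ∀ (V : Type) (H : SimpleGraph V) (O : V → Prop) (p q t : V), NoT2 H →
    (∀ u v, O u → H.Adj u v → O v) → ¬ O p → ¬ O q → ¬ O t → H.Adj p q → t ≠ p → t ≠ q →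
    Dd H p q t → ∀ u v w, O u → H.Adj u v → H.Adj v w → u ≠ w → H.Adj u w

/-- OUT: two vertices outside the component of a non-twin edge give configuration Z. -/
def S_OUT : Prop := ∀ (V : Type) (H : SimpleGraph V) (O : V → Prop) (p q t u0 v0 : V), NoT2 H →
    (∀ u v, O u → H.Adj u v → O v) → ¬ O p → ¬ O q → ¬ O t → H.Adj p q → t ≠ p → t ≠ q →
    Dd H p q t → O u0 → O v0 → u0 ≠ v0 → ∃ x x', Zc H x x' p q

/-- C4F: final form of the case with an induced `C_4`. -/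
def S_C4F : Prop := ∀ (V : Type) (H : SimpleGraph V), NoT2 H → ¬ NoC4 H →
    (∃ x x' p q, Zc H x x' p q) ∨
    ∃ (c : V → Fin 4) (a1 a2 b1 b2 : V), AffC H c ∧ a1 ≠ a2 ∧ b1 ≠ b2 ∧ c a1 = 0 ∧ c a2 = 0 ∧
      c b1 = 1 ∧ c b2 = 1

/-! ## Twin-free graphs -/

/-- TK4: a twin-free graph contains no `K_4`. -/
def S_TK4 : Prop := ∀ (T : Type) (H : SimpleGraph T), NoT2 H → (∀ u v, ¬ Tw H u v) →
    ∀ a b c d, H.Adj a b → H.Adj a c → H.Adj a d → H.Adj b c → H.Adj b d → H.Adj c d → False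

/-- TDIA: a diamond `a c | b v` (`b, v` non-adjacent) in a connected twin-free graph without
induced `C_4`: every other vertex is adjacent to exactly one of `a, c` and exactly one of
`b, v`. -/
def S_TDIA : Prop := ∀ (T : Type) (H : SimpleGraph T), Conn H → NoT2 H → NoC4 H →
    (∀ u v, ¬ Tw H u v) → ∀ a c b v, H.Adj a c → H.Adj a b → H.Adj c b → H.Adj a v → H.Adj c v →
    b ≠ v → ¬ H.Adj b v → ∀ x, x ≠ a → x ≠ c → x ≠ b → x ≠ v →
      (¬ (H.Adj x a ↔ H.Adj x c) ∧ ¬ (H.Adj x b ↔ H.Adj x v))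

/-- TDIA2: with a diamond the graph has at most six vertices, and every vertex is in a
triangle. -/
def S_TDIA2 : Prop := ∀ (T : Type) [Fintype T] (H : SimpleGraph T), Conn H → NoT2 H → NoC4 H →
    (∀ u v, ¬ Tw H u v) → ∀ a c b v, H.Adj a c → H.Adj a b → H.Adj c b → H.Adj a v → H.Adj c v →
    b ≠ v → ¬ H.Adj b v →
    Fintype.card T ≤ 6 ∧ ∀ x, ∃ y z, H.Adj x y ∧ H.Adj x z ∧ H.Adj y z

/-- TPEN: a triangle `a b c` and no diamond: every other vertex is a leaf attached to it. -/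
def S_TPEN : Prop := ∀ (T : Type) (H : SimpleGraph T), NoT2 H →
    (∀ u v, ¬ Tw H u v) → (∀ a c b v, H.Adj a c → H.Adj a b → H.Adj c b → H.Adj a v →
      H.Adj c v → b ≠ v → False) → ∀ a b c, H.Adj a b → H.Adj a c → H.Adj b c →
    ∀ x, x ≠ a → x ≠ b → x ≠ c → ∃ d, (d = a ∨ d = b ∨ d = c) ∧ ∀ y, H.Adj x y ↔ y = d

/-- TTRI: twin-free graphs with a triangle. -/
def S_TTRI : Prop := ∀ (T : Type) [Fintype T] (H : SimpleGraph T), Conn H → NoT2 H → NoC4 H →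
    (∀ u v, ¬ Tw H u v) → (∃ a b c, H.Adj a b ∧ H.Adj a c ∧ H.Adj b c) →
    (∃ z z' a, O1 H z z' a) ∨ (Fintype.card T ≤ 6 ∧ ∀ x, (∃ y z, H.Adj x y ∧ H.Adj x z ∧
      H.Adj y z) ∨ (∃ a b c, H.Adj x a ∧ H.Adj a b ∧ H.Adj a c ∧ H.Adj b c ∧ ¬ H.Adj x b ∧
      ¬ H.Adj x c))

/-- TD3: triangle-free, degree at least three at `P`: everything is within distance two. -/
def S_TD3 : Prop := ∀ (T : Type) (H : SimpleGraph T), Conn H → NoT2 H → NoC4 H →
    (∀ u v, ¬ Tw H u v) → (∀ a b c, H.Adj a b → H.Adj a c → H.Adj b c → False) →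
    ∀ P q1 q2 q3, H.Adj P q1 → H.Adj P q2 → H.Adj P q3 → q1 ≠ q2 → q1 ≠ q3 → q2 ≠ q3 →
    ∀ x, x = P ∨ H.Adj P x ∨ ∃ y, H.Adj P y ∧ H.Adj y x

/-- TD4: triangle-free with a vertex of degree at least four: O1 or O2. -/
def S_TD4 : Prop := ∀ (T : Type) (H : SimpleGraph T), Conn H → NoT2 H → NoC4 H →
    (∀ u v, ¬ Tw H u v) → (∀ a b c, H.Adj a b → H.Adj a c → H.Adj b c → False) →
    ∀ P q1 q2 q3 q4, H.Adj P q1 → H.Adj P q2 → H.Adj P q3 → H.Adj P q4 → q1 ≠ q2 → q1 ≠ q3 →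
    q1 ≠ q4 → q2 ≠ q3 → q2 ≠ q4 → q3 ≠ q4 →
    (∃ z z' a, O1 H z z' a) ∨ (∃ z b v, O2 H z b v)

/-- TPET: triangle-free of maximal degree three. -/
def S_TPET : Prop := ∀ (T : Type) (H : SimpleGraph T), Conn H → NoT2 H → NoC4 H →
    (∀ u v, ¬ Tw H u v) → (∀ a b c, H.Adj a b → H.Adj a c → H.Adj b c → False) →
    (∀ P q1 q2 q3 q4, H.Adj P q1 → H.Adj P q2 → H.Adj P q3 → H.Adj P q4 → q1 ≠ q2 → q1 ≠ q3 →
      q1 ≠ q4 → q2 ≠ q3 → q2 ≠ q4 → q3 ≠ q4 → False) →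
    ∀ P q1 q2 q3, H.Adj P q1 → H.Adj P q2 → H.Adj P q3 → q1 ≠ q2 → q1 ≠ q3 → q2 ≠ q3 →
    (∃ z z' a, O1 H z z' a) ∨ PetE H

/-- TCYC: triangle-free of maximal degree two. -/
def S_TCYC : Prop := ∀ (T : Type) (H : SimpleGraph T), Conn H → NoT2 H → NoC4 H →
    (∀ u v, ¬ Tw H u v) → (∀ a b c, H.Adj a b → H.Adj a c → H.Adj b c → False) →
    (∀ P q1 q2 q3, H.Adj P q1 → H.Adj P q2 → H.Adj P q3 → q1 ≠ q2 → q1 ≠ q3 → q2 ≠ q3 →
      False) → (∃ x y : T, x ≠ y) →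
    (∃ z b v, O2 H z b v) ∨ PetE H

/-- TF: summary for triangle-free twin-free graphs. -/
def S_TF : Prop := ∀ (T : Type) (H : SimpleGraph T), Conn H → NoT2 H → NoC4 H →
    (∀ u v, ¬ Tw H u v) → (∀ a b c, H.Adj a b → H.Adj a c → H.Adj b c → False) →
    (∃ x y : T, x ≠ y) →
    (∃ z z' a, O1 H z z' a) ∨ (∃ z b v, O2 H z b v) ∨ PetE H

/-! ## From the twin-free quotient to the graph -/

/-- The setup: `K` is the component which is not a clique, at most one vertex is outside, `rep`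
chooses representatives of the classes of closed twins. -/
structure Su {V : Type} (H : SimpleGraph V) (rep : V → V) (K : V → Prop) : Prop where
  noT2 : NoT2 H
  noC4 : NoC4 H
  idem : ∀ v, rep (rep v) = rep v
  cls : ∀ u v, rep u = rep v ↔ (u = v ∨ Tw H u v)
  adj : ∀ u v, H.Adj u v ↔ ((rep u = rep v ∧ u ≠ v) ∨ (rep u ≠ rep v ∧ H.Adj (rep u) (rep v)))
  closed : ∀ u v, K u → H.Adj u v → K v
  out : ∀ u v, ¬ K u → ¬ K v → u = v
  iso : ∀ u v, ¬ K u → ¬ H.Adj u v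
  conn : ∀ S : V → Prop, (∃ v, K v ∧ S v) → (∀ u v, S u → H.Adj u v → S v) → ∀ v, K v → S v
  ncl : ∃ a b c, K a ∧ H.Adj a b ∧ H.Adj b c ∧ a ≠ c ∧ ¬ H.Adj a c

/-- The type of the representatives. -/
abbrev TT {V : Type} (rep : V → V) (K : V → Prop) : Type := {v : V // rep v = v ∧ K v}

/-- The twin-free quotient as an induced subgraph. -/
abbrev TG {V : Type} (H : SimpleGraph V) (rep : V → V) (K : V → Prop) :
    SimpleGraph (TT rep K) := H.comap (fun v => v.val)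

/-- SETUP: existence of the setup. -/
def S_SETUP : Prop := ∀ (V : Type) [Finite V] (H : SimpleGraph V), NoT2 H → NoC4 H →
    ¬ Cluster H → (∃ x x' p q, Zc H x x' p q) ∨ ∃ rep K, Su H rep K

/-- TPROP: properties of the quotient. -/
def S_TPROP : Prop := ∀ (V : Type) (H : SimpleGraph V) (rep : V → V) (K : V → Prop),
    Su H rep K → Conn (TG H rep K) ∧ NoT2 (TG H rep K) ∧ NoC4 (TG H rep K) ∧
      (∀ u v, ¬ Tw (TG H rep K) u v) ∧
      (∃ a b c : TT rep K, H.Adj a.val b.val ∧ H.Adj b.val c.val ∧ a ≠ c ∧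
        ¬ H.Adj a.val c.val)

/-- LEAF2: a doubled leaf class. -/
def S_LEAF2 : Prop := ∀ (V : Type) (H : SimpleGraph V) (rep : V → V) (K : V → Prop),
    Su H rep K → ∀ (z a : TT rep K) (z' : V), (∀ v, (TG H rep K).Adj z v ↔ v = a) →
      rep z' = z.val → z' ≠ z.val → ∃ x x' p q, Zc H x x' p q

/-- LO1: two leaves with a common neighbour (no doubled leaf). -/
def S_LO1 : Prop := ∀ (V : Type) (H : SimpleGraph V) (rep : V → V) (K : V → Prop),
    Su H rep K →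
    (∀ (z a : TT rep K) (z' : V), (∀ v, (TG H rep K).Adj z v ↔ v = a) → rep z' = z.val →
      z' = z.val) →
    ∀ (z z' a : TT rep K), O1 (TG H rep K) z z' a →
      (∃ x x' p q, Zc H x x' p q) ∨ ∃ x y, KEc H x y

/-- LO2: a leaf whose neighbour has degree two (no doubled leaf). -/
def S_LO2 : Prop := ∀ (V : Type) (H : SimpleGraph V) (rep : V → V) (K : V → Prop),
    Su H rep K →
    (∀ (z a : TT rep K) (z' : V), (∀ v, (TG H rep K).Adj z v ↔ v = a) → rep z' = z.val →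
      z' = z.val) →
    ∀ (z b v : TT rep K), O2 (TG H rep K) z b v →
      (∃ x x' p q, Zc H x x' p q) ∨ ∃ x y, KEc H x y

/-- NBR: the neighbours of a doubled class are pairwise non-adjacent in the quotient, and a
doubled class is not the pendant vertex of a paw. -/
def S_NBR : Prop := ∀ (V : Type) (H : SimpleGraph V) (rep : V → V) (K : V → Prop),
    Su H rep K → ∀ (P : TT rep K) (P' : V), rep P' = P.val → P' ≠ P.val →
      (∀ y z : TT rep K, (TG H rep K).Adj P y → (TG H rep K).Adj P z → ¬ (TG H rep K).Adj y z) ∧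
      (∀ a b c : TT rep K, (TG H rep K).Adj P a → (TG H rep K).Adj a b → (TG H rep K).Adj a c →
        (TG H rep K).Adj b c → ¬ (TG H rep K).Adj P b → ¬ (TG H rep K).Adj P c → False)

/-- LTRI: the triangle case has at most seven vertices. -/
def S_LTRI : Prop := ∀ (V : Type) [Fintype V] (H : SimpleGraph V) (rep : V → V) (K : V → Prop),
    Su H rep K → (∃ a b c : TT rep K, (TG H rep K).Adj a b ∧ (TG H rep K).Adj a c ∧
      (TG H rep K).Adj b c) → (∃ z z' a, O1 (TG H rep K) z z' a) ∨ Fintype.card V ≤ 7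

/-- LTR: a class with at least three vertices, no O1, O2, no doubled leaf. -/
def S_LTR : Prop := ∀ (V : Type) (H : SimpleGraph V) (rep : V → V) (K : V → Prop),
    Su H rep K → (¬ ∃ z z' a, O1 (TG H rep K) z z' a) → (¬ ∃ z b v, O2 (TG H rep K) z b v) →
    (∀ (z a : TT rep K) (z' : V), (∀ v, (TG H rep K).Adj z v ↔ v = a) → rep z' = z.val →
      z' = z.val) →
    ∀ (P : TT rep K) (P1 P2 : V), rep P1 = P.val → rep P2 = P.val → P1 ≠ P.val → P2 ≠ P.val →
      P1 ≠ P2 → ∃ p p' p'' q g h e, TRc H p p' p'' q g h e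

/-- LPET: the quotient embeds in the Petersen graph and all classes have at most two
vertices. -/
def S_LPET : Prop := ∀ (V : Type) (H : SimpleGraph V) (rep : V → V) (K : V → Prop),
    Su H rep K → PetE (TG H rep K) →
    (∀ u v w, K u → rep u = rep v → rep u = rep w → u = v ∨ u = w ∨ v = w) → PetB H

/-- MAIN: the structure theorem. -/
def S_MAIN : Prop := ∀ (V : Type) [Fintype V] (H : SimpleGraph V), 8 ≤ Fintype.card V →
    NoT2 H → ¬ Cluster H →
    (∃ x x' p q, Zc H x x' p q) ∨ (∃ x y, KEc H x y) ∨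
    (∃ (c : V → Fin 4) (a1 a2 b1 b2 : V), AffC H c ∧ a1 ≠ a2 ∧ b1 ≠ b2 ∧ c a1 = 0 ∧
      c a2 = 0 ∧ c b1 = 1 ∧ c b2 = 1) ∨
    (∃ p p' p'' q g h e, TRc H p p' p'' q g h e) ∨ PetB H

end Pool.Agent.Work.MP_12b649_co.Even
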