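import Mathlib
import Pool.Agent.Work.MP_12b649_co.Product

/-!
# The outer cycles of the generalised product (the outer order is any odd number at least 3)
-/

namespace Pool.Agent.Work.MP_12b649_co.GX

open Pool.Agent.Work.MP_12b649_co

variable {d e : ℕ}

/-- The outer cycle with label `l`. -/
def fo (l : ZMod e) : Equiv.Perm (ZMod d × ZMod e) where
  toFun p := (p.1 + 1, p.2 + sg p.1.val l)
  invFun p := (p.1 - 1, p.2 - sg (p.1 - 1).val l)
  left_inv p := by simp
  right_inv p := by simp

lemma fo_apply (l : ZMod e) (p : ZMod d × ZMod e) :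
    fo l p = (p.1 + 1, p.2 + sg p.1.val l) := rfl

/-- The modified outer cycle with label `l`. -/
def fs (l : ZMod e) : Equiv.Perm (ZMod d × ZMod e) := (fo l).trans sh

lemma fs_apply (l : ZMod e) (p : ZMod d × ZMod e) :
    fs l p = if p.2 = - sg p.1.val l then (p.1, 0) else (p.1 + 1, p.2 + sg p.1.val l) := by
  unfold fs
  rw [Equiv.trans_apply, sh_apply, fo_apply]
  simp only
  have h2 : (p.2 + sg p.1.val l = 0) ↔ p.2 = - sg p.1.val l := by
    constructor
    · intro h; linear_combination h
    · intro h; linear_combination h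
  by_cases h : p.2 = - sg p.1.val l
  · rw [if_pos (h2.2 h), if_pos h, h2.2 h]
    simp
  · rw [if_neg (fun h' => h (h2.1 h')), if_neg h]

lemma fo_nat (l : ZMod e) {n : ℕ} (hn : n < d) (i : ZMod e) :
    fo l ((n : ZMod d), i) = (((n + 1 : ℕ) : ZMod d), i + sg n l) := by
  rw [fo_apply]
  simp only [Prod.mk.injEq]
  constructor
  · push_cast; ring
  · rw [ZMod.val_natCast_of_lt hn]

/-- The outer cycles are Hamiltonian. -/
lemma trans_fo [NeZero d] [NeZero e] (hodd : Odd d) (hd3 : 3 ≤ d) (l : ZMod e)
    (u v : ZMod d × ZMod e) : (fo l).SameCycle u v := by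
  have st : ∀ n : ℕ, n < d → ∀ i : ZMod e, (fo l).SameCycle ((n : ZMod d), i)
      (((n + 1 : ℕ) : ZMod d), i + sg n l) := fun n hn i => sc_step (fo_nat l hn i)
  have h3 : ∀ m : ℕ, 3 + 2 * m ≤ d → ∀ i : ZMod e, (fo l).SameCycle
      (((3 : ℕ) : ZMod d), i) (((3 + 2 * m : ℕ) : ZMod d), i) := by
    intro m
    induction m with
    | zero => intro _ i; exact Equiv.Perm.SameCycle.refl _ _
    | succ m ih =>
      intro hm i
      have h1 := st (3 + 2 * m) (by omega) i
      have h2 := st (3 + 2 * m + 1) (by omega) (i + sg (3 + 2 * m) l)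
      rw [sg_odd (⟨m + 1, by ring⟩) l] at h1 h2
      rw [sg_even (⟨m + 2, by ring⟩) (by omega) l] at h2
      have h4 : i + l + -l = i := by ring
      rw [h4] at h2
      have h5 : 3 + 2 * (m + 1) = 3 + 2 * m + 1 + 1 := by ring
      rw [h5]
      exact ((ih (by omega) i).trans h1).trans h2
  have h3d : ∀ i : ZMod e, (fo l).SameCycle (((3 : ℕ) : ZMod d), i) (0, i) := by
    intro i
    obtain ⟨k, hk⟩ := hodd
    have := h3 (k - 1) (by omega) i
    have h6 : 3 + 2 * (k - 1) = d := by omega
    rw [h6, ZMod.natCast_self] at this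
    exact this
  have h01 : ∀ i : ZMod e, (fo l).SameCycle ((0 : ZMod d), i) (0, i + 1) := by
    intro i
    have a0 := st 0 (by omega) i
    have a1 := st 1 (by omega) (i + sg 0 l)
    have a2 := st 2 (by omega) (i + sg 0 l + sg 1 l)
    have a3 := h3d (i + sg 0 l + sg 1 l + sg 2 l)
    have a4 : i + sg 0 l + sg 1 l + sg 2 l = i + 1 := by
      rw [sg_zero, sg_one, sg_two]; ring
    rw [a4] at a2 a3
    rw [Nat.cast_zero] at a0
    exact ((a0.trans a1).trans a2).trans a3
  have h0 : ∀ k : ℕ, (fo l).SameCycle ((0 : ZMod d), (0 : ZMod e)) (0, (k : ZMod e)) := by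
    intro k
    induction k with
    | zero => rw [Nat.cast_zero]
    | succ k ih =>
      rw [Nat.cast_succ]
      exact ih.trans (h01 _)
  have h0' : ∀ i : ZMod e, (fo l).SameCycle ((0 : ZMod d), (0 : ZMod e)) (0, i) := by
    intro i
    have := h0 i.val
    rwa [ZMod.natCast_zmod_val] at this
  have hpow : ∀ (k : ℕ) (p : ZMod d × ZMod e), ((fo l ^ k) p).1 = p.1 + k := by
    intro k
    induction k with
    | zero => intro p; simp
    | succ k ih =>
      intro p
      rw [pow_succ, Equiv.Perm.mul_apply, ih, fo_apply]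
      push_cast
      ring
  have hto : ∀ p : ZMod d × ZMod e, (fo l).SameCycle ((0 : ZMod d), (0 : ZMod e)) p := by
    intro p
    set k : ℕ := (-p.1).val with hk
    have h1 : ((fo l ^ k) p).1 = 0 := by
      rw [hpow, hk, ZMod.natCast_zmod_val]
      ring
    have h2 : (fo l).SameCycle p ((fo l ^ k) p) :=
      Equiv.Perm.sameCycle_pow_right.2 (Equiv.Perm.SameCycle.refl _ _)
    have h4 : ((fo l ^ k) p) = (0, ((fo l ^ k) p).2) := by
      rw [← h1]
    rw [h4] at h2
    exact (h0' _).trans h2.symm
  exact (hto u).symm.trans (hto v)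

/-- The modified outer cycles are Hamiltonian. -/
lemma trans_fs [NeZero d] [NeZero e] (hodd : Odd d) (hd3 : 3 ≤ d) {m : ℕ} (hm1 : 1 ≤ m)
    (hm2 : 2 * m < e) (u v : ZMod d × ZMod e) : (fs (m : ZMod e)).SameCycle u v := by
  set l : ZMod e := (m : ZMod e) with hl
  set R := (fs (d := d) l).SameCycle with hR
  -- nonvanishing facts
  have nz : ∀ k : ℕ, 1 ≤ k → k < e → (k : ZMod e) ≠ 0 := by
    intro k h1 h2 h
    have := (ZMod.natCast_eq_zero_iff k e).mp h
    exact absurd (Nat.le_of_dvd (by omega) this) (by omega)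
  have hl0 : l ≠ 0 := nz m hm1 (by omega)
  have h2l1 : (1 : ZMod e) - 2 * l ≠ 0 := by
    intro h
    apply nz (2 * m - 1) (by omega) (by omega)
    rw [Nat.cast_sub (by omega)]
    push_cast
    rw [← hl]
    linear_combination -h
  -- steps
  have st : ∀ n : ℕ, n < d → ∀ i : ZMod e, i + sg n l ≠ 0 →
      R ((n : ZMod d), i) (((n + 1 : ℕ) : ZMod d), i + sg n l) := by
    intro n hn i hi
    apply sc_step
    rw [fs_apply]
    simp only [ZMod.val_natCast_of_lt hn]
    rw [if_neg (fun h => hi (by rw [h]; ring))]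
    push_cast
    rfl
  have sz : ∀ n : ℕ, n < d → R ((n : ZMod d), - sg n l) ((n : ZMod d), 0) := by
    intro n hn
    apply sc_step
    rw [fs_apply]
    simp only [ZMod.val_natCast_of_lt hn, if_true]
  -- the pairs of cosets from coset 3 on
  have pair : ∀ n : ℕ, Odd n → 3 ≤ n → n + 2 ≤ d → ∀ i : ZMod e,
      R ((n : ZMod d), i) (((n + 2 : ℕ) : ZMod d), i) := by
    intro n hn hn3 hnd i
    have e1 : sg n l = l := sg_odd hn l
    have e2 : sg (n + 1) l = -l := sg_even (by exact hn.add_one) (by omega) l
    have z0 := sz n (by omega)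
    have z1 := sz (n + 1) (by omega)
    rw [e1] at z0
    rw [e2, neg_neg] at z1
    -- `(n,0) ~ (n+2,-l)`
    have a0 : R ((n : ZMod d), 0) (((n + 2 : ℕ) : ZMod d), -l) := by
      have b0 := st n (by omega) 0 (by rw [e1, zero_add]; exact hl0)
      rw [e1, zero_add] at b0
      have b1 := st (n + 1) (by omega) 0 (by rw [e2, zero_add]; exact neg_ne_zero.mpr hl0)
      rw [e2, zero_add] at b1
      exact (b0.trans z1).trans b1
    have a1 : R (((n + 2 : ℕ) : ZMod d), -l) (((n + 2 : ℕ) : ZMod d), 0) := by
      rcases Nat.lt_or_ge (n + 2) d with h | h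
      · have := sz (n + 2) h
        rwa [sg_odd (by
          obtain ⟨k, hk⟩ := hn
          exact ⟨k + 1, by omega⟩)] at this
      · have h' : n + 2 = d := by omega
        have := sz 0 (by omega)
        rw [sg_zero, Nat.cast_zero] at this
        rw [h', ZMod.natCast_self]
        exact this
    by_cases hi0 : i = 0
    · rw [hi0]
      exact a0.trans a1
    by_cases hil : i = -l
    · rw [hil]
      exact z0.trans a0
    have b0 := st n (by omega) i (by
      rw [e1]
      intro h
      exact hil (by linear_combination h))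
    rw [e1] at b0
    have b1 := st (n + 1) (by omega) (i + l) (by
      rw [e2]
      intro h
      exact hi0 (by linear_combination h))
    rw [e2] at b1
    have h4 : i + l + -l = i := by ring
    rw [h4] at b1
    exact b0.trans b1
  -- `(n, i) ~ (0, i)` for odd `n ≥ 3`
  have oddn : ∀ k n : ℕ, n + 2 * k = d → Odd n → 3 ≤ n → ∀ i : ZMod e,
      R ((n : ZMod d), i) ((0 : ZMod d), i) := by
    intro k
    induction k with
    | zero =>
      intro n h1 _ _ i
      have : n = d := by omega
      rw [this, ZMod.natCast_self]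
    | succ k ih =>
      intro n h1 h2 h3 i
      have h4 : Odd (n + 2) := by
        obtain ⟨k, hk⟩ := h2
        exact ⟨k + 1, by omega⟩
      exact (pair n h2 h3 (by omega) i).trans (ih (n + 2) (by omega) h4 (by omega) i)
  have oddn' : ∀ n : ℕ, n ≤ d → Odd n → 3 ≤ n → ∀ i : ZMod e,
      R ((n : ZMod d), i) ((0 : ZMod d), i) := by
    intro n hn h1 h3 i
    obtain ⟨a, ha⟩ := hodd
    obtain ⟨b, hb⟩ := h1
    exact oddn (a - b) n (by omega) ⟨b, hb⟩ h3 i
  have h3 : ∀ i : ZMod e, R (((3 : ℕ) : ZMod d), i) ((0 : ZMod d), i) :=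
    oddn' 3 hd3 (by decide) le_rfl
  -- every point is equivalent to a point of coset 0
  have one0 : ∀ i : ZMod e, ∃ i', R (((1 : ℕ) : ZMod d), i) ((0 : ZMod d), i') := by
    intro i
    have key : ∀ i : ZMod e, i ≠ 0 → ∃ i', R (((1 : ℕ) : ZMod d), i) ((0 : ZMod d), i') := by
      intro i hi
      have := st 0 (by omega) (i - l) (by rw [sg_zero, sub_add_cancel]; exact hi)
      rw [sg_zero, sub_add_cancel, Nat.cast_zero] at this
      exact ⟨_, this.symm⟩
    by_cases hi : i = 0
    · obtain ⟨i', h⟩ := key (-l) (neg_ne_zero.mpr hl0)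
      have := sz 1 (by omega)
      rw [sg_one] at this
      rw [hi]
      exact ⟨i', this.symm.trans h⟩
    · exact key i hi
  have two0 : ∀ i : ZMod e, ∃ i', R (((2 : ℕ) : ZMod d), i) ((0 : ZMod d), i') := by
    intro i
    have key : ∀ i : ZMod e, i ≠ 0 → ∃ i', R (((2 : ℕ) : ZMod d), i) ((0 : ZMod d), i') := by
      intro i hi
      have := st 1 (by omega) (i - l) (by rw [sg_one, sub_add_cancel]; exact hi)
      rw [sg_one, sub_add_cancel] at this
      obtain ⟨i', h⟩ := one0 (i - l)
      exact ⟨i', this.symm.trans h⟩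
    by_cases hi : i = 0
    · obtain ⟨i', h⟩ := key (-(1 - 2 * l)) (neg_ne_zero.mpr h2l1)
      have := sz 2 (by omega)
      rw [sg_two] at this
      rw [hi]
      exact ⟨i', this.symm.trans h⟩
    · exact key i hi
  have all0 : ∀ p : ZMod d × ZMod e, ∃ i', R p ((0 : ZMod d), i') := by
    rintro ⟨x, i⟩
    have hx : x.val < d := ZMod.val_lt x
    have hxc : ((x.val : ℕ) : ZMod d) = x := ZMod.natCast_zmod_val x
    rw [← hxc]
    generalize x.val = n at hx
    rcases Nat.lt_or_ge n 3 with h | h
    · interval_cases n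
      · rw [Nat.cast_zero]; exact ⟨i, Equiv.Perm.SameCycle.refl _ _⟩
      · exact one0 i
      · exact two0 i
    · rcases Nat.even_or_odd n with hev | hod
      · -- even
        have hn4 : 4 ≤ n := by
          rcases hev with ⟨k, hk⟩
          omega
        have hod1 : Odd (n - 1) := by
          obtain ⟨k, hk⟩ := hev
          exact ⟨k - 1, by omega⟩
        have key : ∀ i : ZMod e, i ≠ 0 → ∃ i', R ((n : ZMod d), i) ((0 : ZMod d), i') := by
          intro i hi
          have h1 := st (n - 1) (by omega) (i - l) (by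
            rw [sg_odd hod1, sub_add_cancel]; exact hi)
          rw [sg_odd hod1, sub_add_cancel, show n - 1 + 1 = n by omega] at h1
          exact ⟨_, h1.symm.trans (oddn' (n - 1) (by omega) hod1 (by omega) (i - l))⟩
        by_cases hi : i = 0
        · obtain ⟨i', h'⟩ := key l hl0
          have := sz n hx
          rw [sg_even hev (by omega), neg_neg] at this
          rw [hi]
          exact ⟨i', this.symm.trans h'⟩
        · exact key i hi
      · exact ⟨i, oddn' n hx.le hod h i⟩
  -- relations within coset 0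
  have r1 : ∀ k : ZMod e, k + l ≠ 0 → k + 2 * l ≠ 0 → k + 1 ≠ 0 →
      R ((0 : ZMod d), k) ((0 : ZMod d), k + 1) := by
    intro k h1 h2 h3'
    have a0 := st 0 (by omega) k (by rw [sg_zero]; exact h1)
    rw [sg_zero, Nat.cast_zero] at a0
    have a1 := st 1 (by omega) (k + l) (by
      rw [sg_one]
      intro h
      exact h2 (by linear_combination h))
    rw [sg_one] at a1
    have e3 : k + l + l + (1 - 2 * l) = k + 1 := by ring
    have a2 := st 2 (by omega) (k + l + l) (by rw [sg_two, e3]; exact h3')
    rw [sg_two, e3] at a2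
    exact ((a0.trans a1).trans a2).trans (h3 _)
  have r2 : R ((0 : ZMod d), -l) ((0 : ZMod d), 0) := by
    have := sz 0 (by omega)
    rw [sg_zero, Nat.cast_zero] at this
    exact this
  have r3 : m ≠ 1 → R ((0 : ZMod d), -(2 * l)) ((0 : ZMod d), 1 - l) := by
    intro hm
    have e1 : -(2 * l) + l = -l := by ring
    have a0 := st 0 (by omega) (-(2 * l)) (by
      rw [sg_zero, e1]
      exact neg_ne_zero.mpr hl0)
    rw [sg_zero, Nat.cast_zero, e1] at a0
    have a1 := sz 1 (by omega)
    rw [sg_one] at a1
    have a2 := st 1 (by omega) 0 (by rw [sg_one, zero_add]; exact hl0)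
    rw [sg_one, zero_add] at a2
    have e2 : l + (1 - 2 * l) = 1 - l := by ring
    have hl1 : (1 : ZMod e) - l ≠ 0 := by
      intro h
      apply nz (m - 1) (by omega) (by omega)
      rw [Nat.cast_sub hm1, Nat.cast_one, ← hl]
      linear_combination -h
    have a3 := st 2 (by omega) l (by rw [sg_two, e2]; exact hl1)
    rw [sg_two, e2] at a3
    exact (((a0.trans a1).trans a2).trans a3).trans (h3 _)
  -- natural number version of `r1`
  have ce : ((e : ℕ) : ZMod e) = 0 := ZMod.natCast_self e
  have r1' : ∀ k : ℕ, k < e → k ≠ e - m → k ≠ e - 2 * m → k ≠ e - 1 →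
      R ((0 : ZMod d), (k : ZMod e)) ((0 : ZMod d), ((k + 1 : ℕ) : ZMod e)) := by
    intro k hk h1 h2 h3'
    rw [Nat.cast_succ]
    have dv : ∀ a : ℕ, 0 < a → a < 2 * e → a ≠ e → (a : ZMod e) ≠ 0 := by
      intro a ha ha2 hae h
      obtain ⟨c, hc⟩ := (ZMod.natCast_eq_zero_iff a e).mp h
      have : c = 1 := by
        rcases Nat.lt_or_ge c 2 with h' | h'
        · interval_cases c
          · omega
          · rfl
        · have : e * 2 ≤ e * c := Nat.mul_le_mul_left e h'
          omega
      rw [this] at hc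
      omega
    apply r1
    · have := dv (k + m) (by omega) (by omega) (by omega)
      push_cast at this
      exact this
    · have := dv (k + 2 * m) (by omega) (by omega) (by omega)
      push_cast at this
      exact this
    · have := dv (k + 1) (by omega) (by omega) (by omega)
      push_cast at this
      exact this
  have cm : ((e - m : ℕ) : ZMod e) = -l := by
    rw [Nat.cast_sub (by omega), ce, ← hl, zero_sub]
  have c2m : ((e - 2 * m : ℕ) : ZMod e) = -(2 * l) := by
    rw [Nat.cast_sub (by omega), ce, hl]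
    push_cast
    ring
  -- arc 1
  have arc1 : ∀ k : ℕ, k ≤ e - 2 * m →
      R ((0 : ZMod d), (0 : ZMod e)) ((0 : ZMod d), (k : ZMod e)) := by
    intro k
    induction k with
    | zero => intro _; rw [Nat.cast_zero]
    | succ k ih =>
      intro hk
      exact (ih (by omega)).trans (r1' k (by omega) (by omega) (by omega) (by omega))
  -- arc 2, downwards from `e - m`
  have arc2 : ∀ k : ℕ, k < m →
      R ((0 : ZMod d), (0 : ZMod e)) ((0 : ZMod d), ((e - m - k : ℕ) : ZMod e)) := by
    intro k
    induction k with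
    | zero =>
      intro _
      rw [Nat.sub_zero, cm]
      exact r2.symm
    | succ k ih =>
      intro hk
      have := r1' (e - m - (k + 1)) (by omega) (by omega) (by omega) (by omega)
      rw [show e - m - (k + 1) + 1 = e - m - k by omega] at this
      exact (ih (by omega)).trans this.symm
  -- arc 3
  have arc3 : ∀ k : ℕ, e - m + 1 + k < e →
      R ((0 : ZMod d), (0 : ZMod e)) ((0 : ZMod d), ((e - m + 1 + k : ℕ) : ZMod e)) := by
    intro k
    induction k with
    | zero =>
      intro hk
      have h1 := arc1 (e - 2 * m) le_rfl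
      rw [c2m] at h1
      have h2 := r3 (by omega)
      have h4 : ((e - m + 1 + 0 : ℕ) : ZMod e) = 1 - l := by
        rw [add_zero, Nat.cast_add, cm]
        push_cast
        ring
      rw [h4]
      exact h1.trans h2
    | succ k ih =>
      intro hk
      have := r1' (e - m + 1 + k) (by omega) (by omega) (by omega) (by omega)
      exact (ih (by omega)).trans this
  have zero_all : ∀ i : ZMod e, R ((0 : ZMod d), (0 : ZMod e)) ((0 : ZMod d), i) := by
    intro i
    have hi : i.val < e := ZMod.val_lt i
    have hic : ((i.val : ℕ) : ZMod e) = i := ZMod.natCast_zmod_val i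
    rw [← hic]
    generalize i.val = k at hi
    rcases Nat.lt_or_ge (e - 2 * m) k with h1 | h1
    · rcases Nat.lt_or_ge (e - m) k with h2 | h2
      · have := arc3 (k - (e - m + 1)) (by omega)
        rwa [show e - m + 1 + (k - (e - m + 1)) = k by omega] at this
      · have := arc2 (e - m - k) (by omega)
        rwa [show e - m - (e - m - k) = k by omega] at this
    · exact arc1 k h1
  obtain ⟨iu, hu⟩ := all0 u
  obtain ⟨iv, hv⟩ := all0 v
  exact (hu.trans ((zero_all iu).symm.trans (zero_all iv))).trans hv.symm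

end Pool.Agent.Work.MP_12b649_co.GX
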