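import Mathlib
import Pool.Agent.Work.MP_12b649_co.Bd.B01
import Pool.Agent.Work.MP_12b649_co.Even.GX1

/-!
# The generalised product of two Kotzig factorizations
-/

namespace Pool.Agent.Work.MP_12b649_co.GX

open Pool.Agent.Work.MP_12b649_co

/-- The data of the generalised product of `Kd` (outer) and `K` (inner). -/
structure PData {d e : ℕ} (Kd : Kotzig d) (K : Kotzig e) where
  hd : Odd d
  hd3 : 3 ≤ d
  he : Odd e
  b : Kd.V
  j0 : Kd.J
  w0 : K.V
  κ : Kd.J → Kd.V ≃ ZMod d
  κb : ∀ j, κ j b = 0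
  κf : ∀ j u, κ j (Kd.f j u) = κ j u + 1
  lam : K.J → ℕ
  lam_inj : Function.Injective lam
  lam1 : ∀ j, 1 ≤ lam j
  lam2 : ∀ j, 2 * lam j < e
  φ : Kd.V → K.V ≃ ZMod e
  φ0 : ∀ u, φ u w0 = 0
  φq : ∀ u j, φ u (K.f j w0) = - sg (κ j0 u).val (lam j : ZMod e)
  h : Kd.V ≃ Kd.V
  hh : ∀ u, Kd.col (h u) (Kd.f j0 (h u)) = Kd.col u u
  ψ : Kd.V → K.C ≃ ZMod e
  ψq : ∀ u j, ψ u (K.col w0 (K.f j w0)) = - sg (κ j0 (h u)).val (lam j : ZMod e)

/-- Transfer of cycles along an equivalence. -/
lemma sc_conj {α β : Type} [Finite β] (E : α ≃ β) (f : Equiv.Perm α) (g : Equiv.Perm β)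
    (h : ∀ a, E (f a) = g (E a)) {u v : α} (hs : g.SameCycle (E u) (E v)) : f.SameCycle u v := by
  obtain ⟨k, hk⟩ := hs.exists_nat_pow_eq
  have key : ∀ k : ℕ, E ((f ^ k) u) = (g ^ k) (E u) := by
    intro k
    induction k with
    | zero => simp
    | succ k ih => rw [pow_succ', pow_succ', Equiv.Perm.mul_apply, Equiv.Perm.mul_apply, h, ih]
  rw [← key] at hk
  rw [← E.injective hk]
  exact Equiv.Perm.sameCycle_pow_right.2 (Equiv.Perm.SameCycle.refl _ _)

namespace PData

variable {d e : ℕ} {Kd : Kotzig d} {K : Kotzig e} (P : PData Kd K)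

include P in
lemma e_pos : 0 < e := P.he.pos

include P in
lemma e_ne : NeZero e := ⟨P.he.pos.ne'⟩

include P in
lemma d_ne : NeZero d := ⟨by have := P.hd3; omega⟩

/-- The second coordinate of the end point of the exchanged edge of label `lam m` in coset `u`. -/
def q (m : K.J) (u : Kd.V) : ZMod e := - sg (P.κ P.j0 u).val (P.lam m : ZMod e)

/-- Unmodified outer cycles. -/
def op (j : Kd.J) (l : ZMod e) : Equiv.Perm (Kd.V × ZMod e) where
  toFun p := (Kd.f j p.1, p.2 + sg (P.κ j p.1).val l)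
  invFun p := ((Kd.f j).symm p.1, p.2 - sg (P.κ j ((Kd.f j).symm p.1)).val l)
  left_inv p := by simp
  right_inv p := by simp

/-- The shift of the points with second coordinate `0`. -/
def shg : Equiv.Perm (Kd.V × ZMod e) where
  toFun p := if p.2 = 0 then ((Kd.f P.j0).symm p.1, p.2) else p
  invFun p := if p.2 = 0 then (Kd.f P.j0 p.1, p.2) else p
  left_inv p := by
    by_cases h : p.2 = 0
    · simp only [h, if_true, Equiv.apply_symm_apply]
      rw [← h]
    · simp [h]
  right_inv p := by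
    by_cases h : p.2 = 0
    · simp only [h, if_true, Equiv.symm_apply_apply]
      rw [← h]
    · simp [h]

/-- The inner cycles before the exchange. -/
def gin (m : K.J) : Equiv.Perm (Kd.V × ZMod e) where
  toFun p := (p.1, P.φ p.1 ((K.f m).symm ((P.φ p.1).symm p.2)))
  invFun p := (p.1, P.φ p.1 (K.f m ((P.φ p.1).symm p.2)))
  left_inv p := by simp
  right_inv p := by simp

open Classical in
/-- All the rows of the product. -/
noncomputable def row : (Kd.J × ZMod e) ⊕ K.J → Equiv.Perm (Kd.V × ZMod e)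
  | Sum.inl p => if p.1 = P.j0 ∧ ∃ m, (P.lam m : ZMod e) = p.2 then (P.op p.1 p.2).trans P.shg
      else P.op p.1 p.2
  | Sum.inr m => (P.gin m).trans P.shg.symm

open Classical in
/-- The colouring of the product. -/
noncomputable def col (u v : Kd.V × ZMod e) : Kd.C × ZMod e :=
  if u.1 = v.1 then
    (Kd.col u.1 u.1, P.ψ u.1 (K.col ((P.φ u.1).symm u.2) ((P.φ u.1).symm v.2)))
  else (Kd.col u.1 v.1, u.2 + v.2)

lemma op_apply (j : Kd.J) (l : ZMod e) (p : Kd.V × ZMod e) :
    P.op j l p = (Kd.f j p.1, p.2 + sg (P.κ j p.1).val l) := rfl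

lemma shg_apply (p : Kd.V × ZMod e) :
    P.shg p = if p.2 = 0 then ((Kd.f P.j0).symm p.1, p.2) else p := rfl

lemma shg_symm_apply (p : Kd.V × ZMod e) :
    P.shg.symm p = if p.2 = 0 then (Kd.f P.j0 p.1, p.2) else p := rfl

lemma nz {k : ℕ} (h1 : 1 ≤ k) (h2 : k < e) : (k : ZMod e) ≠ 0 := by
  intro h
  have := (ZMod.natCast_eq_zero_iff k e).mp h
  exact absurd (Nat.le_of_dvd (by omega) this) (by omega)

lemma lab0 (m : K.J) : (P.lam m : ZMod e) ≠ 0 :=
  nz (P.lam1 m) (by have := P.lam2 m; omega)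

lemma lab1 (m : K.J) : (1 : ZMod e) - 2 * (P.lam m : ZMod e) ≠ 0 := by
  intro h
  apply nz (e := e) (k := 2 * P.lam m - 1) (by have := P.lam1 m; omega)
    (by have := P.lam2 m; omega)
  rw [Nat.cast_sub (by have := P.lam1 m; omega)]
  push_cast
  linear_combination -h

lemma lab_inj : Function.Injective (fun m => (P.lam m : ZMod e)) := by
  intro m m' h
  apply P.lam_inj
  have a1 : (P.lam m : ZMod e).val = P.lam m :=
    ZMod.val_natCast_of_lt (by have := P.lam2 m; omega)
  have a2 : (P.lam m' : ZMod e).val = P.lam m' :=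
    ZMod.val_natCast_of_lt (by have := P.lam2 m'; omega)
  rw [← a1, ← a2]
  exact congrArg ZMod.val h

lemma q_ne (m : K.J) (u : Kd.V) : P.q m u ≠ 0 := by
  simp only [q, neg_ne_zero]
  unfold sg
  split_ifs
  · exact P.lab0 m
  · exact P.lab1 m
  · exact P.lab0 m
  · exact neg_ne_zero.mpr (P.lab0 m)

lemma φ_ν (m : K.J) (u : Kd.V) : P.φ u (K.f m P.w0) = P.q m u := P.φq u m

lemma φs_zero (u : Kd.V) : (P.φ u).symm 0 = P.w0 := by
  rw [Equiv.symm_apply_eq, P.φ0]

lemma φs_q (m : K.J) (u : Kd.V) : (P.φ u).symm (P.q m u) = K.f m P.w0 := by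
  rw [Equiv.symm_apply_eq, φ_ν]

/-! ### The rows -/

/-- An outer row is regular at `(u, i)` unless it is the edge to be exchanged. -/
lemma row_inl_reg (j : Kd.J) (l : ZMod e) (u : Kd.V) (i : ZMod e)
    (h : ∀ m, j = P.j0 → (P.lam m : ZMod e) = l → i ≠ P.q m u) :
    P.row (Sum.inl (j, l)) (u, i) = (Kd.f j u, i + sg (P.κ j u).val l) := by
  unfold row
  simp only
  split_ifs with hc
  · obtain ⟨hj, m, hm⟩ := hc
    rw [Equiv.trans_apply, op_apply, shg_apply]
    simp only
    rw [if_neg]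
    intro h0
    apply h m hj hm
    unfold q
    rw [hm, ← hj]
    linear_combination h0
  · rfl

/-- The exchanged edges in the outer rows. -/
lemma row_inl_sw (m : K.J) (u : Kd.V) :
    P.row (Sum.inl (P.j0, (P.lam m : ZMod e))) (u, P.q m u) = (u, 0) := by
  unfold row
  simp only
  rw [if_pos ⟨rfl, m, rfl⟩, Equiv.trans_apply, op_apply, shg_apply]
  have h0 : P.q m u + sg (P.κ P.j0 u).val (P.lam m : ZMod e) = 0 := by
    unfold q; ring
  simp only [h0, if_true, Equiv.symm_apply_apply]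

/-- The inner rows. -/
lemma row_inr_reg (m : K.J) (u : Kd.V) (i : ZMod e) (h : i ≠ P.q m u) :
    P.row (Sum.inr m) (u, i) = (u, P.φ u ((K.f m).symm ((P.φ u).symm i))) := by
  have h1 : (P.gin m (u, i)) = (u, P.φ u ((K.f m).symm ((P.φ u).symm i))) := rfl
  have h2 : P.φ u ((K.f m).symm ((P.φ u).symm i)) = 0 ↔ i = P.q m u := by
    rw [← P.φ_ν m u, ← P.φ0 u, (P.φ u).apply_eq_iff_eq, Equiv.symm_apply_eq,
      Equiv.symm_apply_eq]
  show P.shg.symm (P.gin m (u, i)) = _
  rw [h1, shg_symm_apply]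
  rw [if_neg (fun h' => h (h2.mp h'))]

lemma row_inr_sw (m : K.J) (u : Kd.V) :
    P.row (Sum.inr m) (u, P.q m u) = (Kd.f P.j0 u, 0) := by
  have h1 : (P.gin m (u, P.q m u)) =
    (u, P.φ u ((K.f m).symm ((P.φ u).symm (P.q m u)))) := rfl
  have h2 : P.φ u ((K.f m).symm ((P.φ u).symm (P.q m u))) = 0 := by
    rw [φs_q, Equiv.symm_apply_apply, P.φ0]
  show P.shg.symm (P.gin m (u, P.q m u)) = _
  rw [h1, shg_symm_apply, h2]
  simp

/-- The inner rows in terms of the symbols of the inner factorization. -/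
lemma row_inr_reg' (m : K.J) (u : Kd.V) (w : K.V) (h : w ≠ P.w0) :
    P.row (Sum.inr m) (u, P.φ u (K.f m w)) = (u, P.φ u w) := by
  rw [row_inr_reg, Equiv.symm_apply_apply, Equiv.symm_apply_apply]
  rw [← P.φ_ν m u, (P.φ u).apply_eq_iff_eq.ne]
  intro h'
  exact h ((K.f m).injective h')

/-! ### The colouring -/

lemma col_eq (u : Kd.V) (i i' : ZMod e) : P.col (u, i) (u, i') =
    (Kd.col u u, P.ψ u (K.col ((P.φ u).symm i) ((P.φ u).symm i'))) := by
  simp only [col, if_true]

lemma col_ne (u v : Kd.V) (i i' : ZMod e) (h : u ≠ v) :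
    P.col (u, i) (v, i') = (Kd.col u v, i + i') := by
  simp only [col, if_neg h]

lemma col_fst (u v : Kd.V × ZMod e) : (P.col u v).1 = Kd.col u.1 v.1 := by
  simp only [col]
  split_ifs with h
  · rw [h]
  · rfl

lemma col_q (u : Kd.V) (m : K.J) :
    P.col (u, P.q m u) (u, 0) = (Kd.col u u, P.q m (P.h u)) := by
  rw [col_eq, φs_zero, φs_q, K.col_comm, P.ψq]
  rfl

/-! ### All rows are Hamiltonian cycles -/

lemma trans_out (j : Kd.J) (l : ZMod e) (u v : Kd.V × ZMod e) :
    (P.op j l).SameCycle u v := by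
  have := P.e_ne
  have := P.d_ne
  refine sc_conj ((P.κ j).prodCongr (Equiv.refl (ZMod e))) (P.op j l) (fo l) ?_
    (trans_fo P.hd P.hd3 l _ _)
  intro a
  rw [op_apply, fo_apply]
  simp only [Equiv.prodCongr_apply, Prod.map, Equiv.refl_apply, P.κf]

lemma trans_sw (m : K.J) (u v : Kd.V × ZMod e) :
    Equiv.Perm.SameCycle ((P.op P.j0 (P.lam m : ZMod e)).trans P.shg) u v := by
  have := P.e_ne
  have := P.d_ne
  refine sc_conj ((P.κ P.j0).prodCongr (Equiv.refl (ZMod e))) _ (fs (P.lam m : ZMod e)) ?_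
    (trans_fs P.hd P.hd3 (P.lam1 m) (P.lam2 m) _ _)
  intro a
  unfold fs
  rw [Equiv.trans_apply, Equiv.trans_apply, op_apply, fo_apply, shg_apply, sh_apply]
  simp only [Equiv.prodCongr_apply, Prod.map, Equiv.refl_apply]
  by_cases h0 : a.2 + sg (P.κ P.j0 a.1).val (P.lam m : ZMod e) = 0
  · simp only [h0, if_true, Equiv.symm_apply_apply, add_sub_cancel_right]
  · simp only [h0, if_false, P.κf]

lemma trans_in (m : K.J) (u v : Kd.V × ZMod e) : (P.row (Sum.inr m)).SameCycle u v := by
  have s1 : ∀ x w, w ≠ P.w0 →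
      (P.row (Sum.inr m)).SameCycle (x, P.φ x (K.f m w)) (x, P.φ x w) := by
    intro x w hw
    exact sc_step (P.row_inr_reg' m x w hw)
  have s2 : ∀ x, ∀ k : ℕ, ∀ w, (K.f m ^ k) w = P.w0 →
      (P.row (Sum.inr m)).SameCycle (x, P.φ x w) (x, P.φ x P.w0) := by
    intro x k
    induction k with
    | zero =>
      intro w h
      rw [pow_zero, Equiv.Perm.one_apply] at h
      rw [h]
    | succ k ih =>
      intro w h
      by_cases hw : w = P.w0
      · rw [hw]
      · rw [pow_succ, Equiv.Perm.mul_apply] at h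
        exact (s1 x w hw).symm.trans (ih _ h)
  have s3 : ∀ x i, (P.row (Sum.inr m)).SameCycle (x, i) (x, 0) := by
    intro x i
    obtain ⟨k, hk⟩ := (K.trans m ((P.φ x).symm i) P.w0).exists_nat_pow_eq
    have := s2 x k _ hk
    rwa [Equiv.apply_symm_apply, P.φ0] at this
  have s4 : ∀ x, (P.row (Sum.inr m)).SameCycle (x, 0) (Kd.f P.j0 x, 0) := by
    intro x
    have h1 : (P.row (Sum.inr m)).SameCycle (x, P.q m x) (Kd.f P.j0 x, 0) :=
      sc_step (P.row_inr_sw m x)
    exact (s3 x (P.q m x)).symm.trans h1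
  have s5 : ∀ (x : Kd.V) (k : ℕ),
      (P.row (Sum.inr m)).SameCycle (x, 0) ((Kd.f P.j0 ^ k) x, 0) := by
    intro x k
    induction k with
    | zero => rw [pow_zero, Equiv.Perm.one_apply]
    | succ k ih =>
      rw [pow_succ', Equiv.Perm.mul_apply]
      exact ih.trans (s4 _)
  have s6 : ∀ u, (P.row (Sum.inr m)).SameCycle (P.b, 0) u := by
    rintro ⟨x, i⟩
    obtain ⟨k, hk⟩ := (Kd.trans P.j0 P.b x).exists_nat_pow_eq
    have := s5 P.b k
    rw [hk] at this
    exact this.trans (s3 x i).symm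
  exact (s6 u).symm.trans (s6 v)

lemma trans_row (c : (Kd.J × ZMod e) ⊕ K.J) (u v : Kd.V × ZMod e) :
    (P.row c).SameCycle u v := by
  rcases c with ⟨j, l⟩ | m
  · unfold row
    simp only
    split_ifs with hc
    · obtain ⟨hj, m, hm⟩ := hc
      rw [hj, ← hm]
      exact P.trans_sw m u v
    · exact P.trans_out j l u v
  · exact P.trans_in m u v

/-! ### Orthogonality -/

lemma rho_inj' (h : Kd.V ≃ Kd.V) (m : K.J) : Function.Injective
    (fun p : Kd.V × ZMod e => by
      classical exact if p.2 = P.q m p.1 then (h p.1, P.q m (h p.1)) else p) := by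
  rintro ⟨x, i⟩ ⟨x', i'⟩ heq
  simp only at heq
  split_ifs at heq with h1 h2 h2
  · simp only [Prod.mk.injEq] at heq
    have hx : x = x' := h.injective heq.1
    rw [h1, h2, hx]
  · exfalso
    simp only [Prod.mk.injEq] at heq
    apply h2
    rw [← heq.2, ← heq.1]
  · exfalso
    simp only [Prod.mk.injEq] at heq
    apply h1
    rw [heq.2, heq.1]
  · exact heq

lemma F_inj (j : Kd.J) (l : ZMod e) : Function.Injective
    (fun u : Kd.V × ZMod e => (Kd.col u.1 (Kd.f j u.1),
      u.2 + (u.2 + sg (P.κ j u.1).val l))) := by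
  rintro ⟨x, i⟩ ⟨x', i'⟩ h
  simp only [Prod.mk.injEq] at h
  have hx : x = x' := Kd.orth j h.1
  subst hx
  have hi : i = i' := by
    have : (2 : ZMod e) * i = 2 * i' := by linear_combination h.2
    exact (two_isUnit P.he).mul_left_cancel this
  rw [hi]

lemma f_ne' (j : Kd.J) (x : Kd.V) : x ≠ Kd.f j x := (Kd.f_ne j x).symm

lemma orth_row (c : (Kd.J × ZMod e) ⊕ K.J) :
    Function.Injective (fun u => P.col u (P.row c u)) := by
  classical
  rcases c with ⟨j, l⟩ | m
  · by_cases hc : j = P.j0 ∧ ∃ m, (P.lam m : ZMod e) = l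
    · obtain ⟨hj, m, hm⟩ := hc
      subst hj
      subst hm
      have hG : (fun u => P.col u (P.row (Sum.inl (P.j0, (P.lam m : ZMod e))) u)) =
          (fun u : Kd.V × ZMod e => (Kd.col u.1 (Kd.f P.j0 u.1),
            u.2 + (u.2 + sg (P.κ P.j0 u.1).val (P.lam m : ZMod e)))) ∘
          (fun p : Kd.V × ZMod e =>
            if p.2 = P.q m p.1 then (P.h p.1, P.q m (P.h p.1)) else p) := by
        funext p
        obtain ⟨x, i⟩ := p
        simp only [Function.comp]
        by_cases hi : i = P.q m x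
        · subst hi
          rw [row_inl_sw, col_q]
          simp only [if_true]
          rw [P.hh]
          have : P.q m (P.h x) + sg (P.κ P.j0 (P.h x)).val (P.lam m : ZMod e) = 0 := by
            unfold q; ring
          rw [this, add_zero]
        · rw [row_inl_reg, col_ne _ _ _ _ _ (f_ne' _ _)]
          · simp only [hi, if_false]
          · intro m' _ hm' hi'
            rw [P.lab_inj hm'] at hi'
            exact hi hi'
      rw [hG]
      exact (P.F_inj P.j0 _).comp (P.rho_inj' P.h m)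
    · have hG : (fun u => P.col u (P.row (Sum.inl (j, l)) u)) =
          (fun u : Kd.V × ZMod e => (Kd.col u.1 (Kd.f j u.1),
            u.2 + (u.2 + sg (P.κ j u.1).val l))) := by
        funext p
        obtain ⟨x, i⟩ := p
        rw [row_inl_reg, col_ne _ _ _ _ _ (f_ne' _ _)]
        intro m hj hm
        exact absurd ⟨hj, m, hm⟩ hc
      rw [hG]
      exact P.F_inj j l
  · have hF2 : Function.Injective (fun u : Kd.V × ZMod e =>
        (Kd.col u.1 u.1, P.ψ u.1 (K.col ((P.φ u.1).symm u.2)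
          ((K.f m).symm ((P.φ u.1).symm u.2))))) := by
      rintro ⟨x, i⟩ ⟨x', i'⟩ h
      simp only [Prod.mk.injEq] at h
      have hx : x = x' := Kd.diag_inj h.1
      subst hx
      have h2 := (P.ψ x).injective h.2
      rw [K.col_comm, K.col_comm ((P.φ x).symm i')] at h2
      have h3 := K.orth m (a₁ := (K.f m).symm ((P.φ x).symm i))
        (a₂ := (K.f m).symm ((P.φ x).symm i'))
        (by simpa only [Equiv.apply_symm_apply] using h2)
      have h4 := (P.φ x).symm.injective ((K.f m).symm.injective h3)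
      rw [h4]
    have hG : (fun u => P.col u (P.row (Sum.inr m) u)) =
        (fun u : Kd.V × ZMod e =>
          (Kd.col u.1 u.1, P.ψ u.1 (K.col ((P.φ u.1).symm u.2)
            ((K.f m).symm ((P.φ u.1).symm u.2))))) ∘
        (fun p : Kd.V × ZMod e => if p.2 = P.q m p.1 then
          (P.h.symm p.1, P.q m (P.h.symm p.1)) else p) := by
      funext p
      obtain ⟨x, i⟩ := p
      simp only [Function.comp]
      by_cases hi : i = P.q m x
      · subst hi
        rw [row_inr_sw]
        simp only [if_true]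
        rw [col_ne _ _ _ _ _ (f_ne' _ _), φs_q, Equiv.symm_apply_apply, K.col_comm, P.ψq,
          ← P.hh (P.h.symm x), Equiv.apply_symm_apply]
        simp [q]
      · rw [row_inr_reg _ _ _ _ hi]
        simp only [hi, if_false]
        rw [col_eq, Equiv.symm_apply_apply]
    rw [hG]
    exact hF2.comp (P.rho_inj' P.h.symm m)

/-! ### Covering -/

lemma cover_out (j : Kd.J) (u : Kd.V) (i i' : ZMod e) :
    ∃ c, P.row c (u, i) = (Kd.f j u, i') := by
  have := P.e_ne
  have hsurj : Function.Surjective (sg (P.κ j u).val : ZMod e → ZMod e) :=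
    Finite.surjective_of_injective (sg_injective P.he _)
  obtain ⟨l, hl⟩ := hsurj (i' - i)
  by_cases hc : ∃ m, j = P.j0 ∧ (P.lam m : ZMod e) = l ∧ i = P.q m u
  · obtain ⟨m, hj, hm, hi⟩ := hc
    refine ⟨Sum.inr m, ?_⟩
    rw [hi, row_inr_sw, hj]
    have : i' = 0 := by
      unfold q at hi
      rw [← hm, hj] at hl
      linear_combination -hl + hi
    rw [this]
  · refine ⟨Sum.inl (j, l), ?_⟩
    rw [row_inl_reg, hl, add_sub_cancel]
    intro m hj hm hi
    exact hc ⟨m, hj, hm, hi⟩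

lemma cover_in (u : Kd.V) (w : K.V) (m : K.J) :
    ∃ c, P.row c (u, P.φ u (K.f m w)) = (u, P.φ u w) := by
  by_cases hw : w = P.w0
  · refine ⟨Sum.inl (P.j0, (P.lam m : ZMod e)), ?_⟩
    rw [hw, φ_ν, row_inl_sw, P.φ0]
  · exact ⟨Sum.inr m, P.row_inr_reg' m u w hw⟩

lemma cover_row (u v : Kd.V × ZMod e) (huv : u ≠ v) :
    ∃ c, P.row c u = v ∨ P.row c v = u := by
  obtain ⟨x, i⟩ := u
  obtain ⟨x', i'⟩ := v
  by_cases hx : x = x'
  · subst hx
    have hw : (P.φ x).symm i ≠ (P.φ x).symm i' := by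
      intro h
      apply huv
      rw [(P.φ x).symm.injective h]
    obtain ⟨j, h | h⟩ := K.cover _ _ hw
    · obtain ⟨c, hc⟩ := P.cover_in x ((P.φ x).symm i) j
      rw [h, Equiv.apply_symm_apply, Equiv.apply_symm_apply] at hc
      exact ⟨c, Or.inr hc⟩
    · obtain ⟨c, hc⟩ := P.cover_in x ((P.φ x).symm i') j
      rw [h, Equiv.apply_symm_apply, Equiv.apply_symm_apply] at hc
      exact ⟨c, Or.inl hc⟩
  · obtain ⟨j, h | h⟩ := Kd.cover x x' hx
    · obtain ⟨c, hc⟩ := P.cover_out j x i i'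
      rw [h] at hc
      exact ⟨c, Or.inl hc⟩
    · obtain ⟨c, hc⟩ := P.cover_out j x' i' i
      rw [h] at hc
      exact ⟨c, Or.inr hc⟩

/-- The product. -/
noncomputable def kotzig : Kotzig (d * e) where
  V := Kd.V × ZMod e
  J := (Kd.J × ZMod e) ⊕ K.J
  C := Kd.C × ZMod e
  finV := by have := P.e_ne; infer_instance
  finJ := by have := P.e_ne; infer_instance
  finC := by have := P.e_ne; infer_instance
  cardV := by
    rw [Nat.card_prod, Kd.cardV, Nat.card_zmod]
  cardC := by
    rw [Nat.card_prod, Kd.cardC, Nat.card_zmod]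
  cardJ := by
    have := P.e_ne
    rw [Nat.card_sum, Nat.card_prod, Nat.card_zmod]
    have h1 := Kd.cardJ
    have h2 := K.cardJ
    have h3 : d * e = (2 * Nat.card Kd.J + 1) * e := by rw [h1]
    rw [h3, add_mul, one_mul]
    nlinarith
  f := P.row
  col := P.col
  trans := P.trans_row
  col_comm := by
    rintro ⟨x, i⟩ ⟨x', i'⟩
    by_cases h : x = x'
    · subst h
      rw [col_eq, col_eq, K.col_comm]
    · rw [col_ne _ _ _ _ _ h, col_ne _ _ _ _ _ (Ne.symm h), Kd.col_comm x, add_comm i]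
  col_inj := by
    rintro ⟨x, i⟩ ⟨x', i'⟩ ⟨x'', i''⟩ h
    have h1 : x' = x'' := by
      have := congrArg Prod.fst h
      rw [col_fst, col_fst] at this
      exact Kd.col_inj _ this
    subst h1
    by_cases hx : x = x'
    · subst hx
      rw [col_eq, col_eq] at h
      simp only [Prod.mk.injEq] at h
      have := (P.φ x).symm.injective (K.col_inj _ ((P.ψ x).injective h.2))
      rw [this]
    · rw [col_ne _ _ _ _ _ hx, col_ne _ _ _ _ _ hx] at h
      simp only [Prod.mk.injEq] at h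
      rw [add_left_cancel h.2]
  diag_inj := by
    rintro ⟨x, i⟩ ⟨x', i'⟩ h
    simp only at h
    rw [col_eq, col_eq] at h
    simp only [Prod.mk.injEq] at h
    have hx : x = x' := Kd.diag_inj h.1
    subst hx
    have := (P.φ x).symm.injective (K.diag_inj ((P.ψ x).injective h.2))
    rw [this]
  orth := P.orth_row
  cover := P.cover_row

end PData

end Pool.Agent.Work.MP_12b649_co.GX
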