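import Mathlib
import Pool.Agent.Work.MP_12b649_co.Even.Stmts

/-!
# Complete bipartite or tripartite graphs with an isolated vertex
-/

namespace Pool.Agent.Work.MP_12b649_co.Even

namespace NAFF

variable {M : ℕ}

/-- The displaced rows. -/
def F (a b t : ZMod M) : Option (ZMod M) → Option (ZMod M)
  | none => some (a * t + b * t)
  | some x => if x = t then none else some (a * x + b * t)

/-- The row of the isolated vertex. -/
def Z : Option (ZMod M) → Option (ZMod M)
  | none => none
  | some x => some (3 * x)

/-- First coefficient. -/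
def ca : Fin 4 → ZMod M := ![1, -1, 2, 3]

/-- Second coefficient. -/
def cb : Fin 4 → ZMod M := ![2, 4, 1, 0]

/-- All rows. -/
def R (k : Fin 4) (t : ZMod M) : Option (ZMod M) → Option (ZMod M) :=
  if k = 3 then Z else F (ca k) (cb k) t

/-- Cancellability. -/
def Ca (a : ZMod M) : Prop := ∀ x y, a * x = a * y → x = y

lemma Ca_of_unit {a : ZMod M} (h : IsUnit a) : Ca a := fun _ _ hxy => h.mul_left_cancel hxy

lemma F_inj {a b t : ZMod M} (ha : Ca a) : Function.Injective (F a b t) := by
  intro x y h
  cases x with
  | none =>
    cases y with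
    | none => rfl
    | some y =>
      simp only [F] at h
      split_ifs at h with h1
      exfalso
      have h2 : a * t + b * t = a * y + b * t := by simpa using h
      exact h1 (ha _ _ (add_right_cancel h2)).symm
  | some x =>
    cases y with
    | none =>
      simp only [F] at h
      split_ifs at h with h1
      exfalso
      have h2 : a * x + b * t = a * t + b * t := by simpa using h
      exact h1 (ha _ _ (add_right_cancel h2))
    | some y =>
      simp only [F] at h
      split_ifs at h with h1 h2 h2
      · rw [h1, h2]
      · have h3 : a * x + b * t = a * y + b * t := by simpa using h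
        rw [ha _ _ (add_right_cancel h3)]

lemma Z_inj (h3 : Ca (3 : ZMod M)) : Function.Injective (Z (M := M)) := by
  intro x y h
  cases x with
  | none =>
    cases y with
    | none => rfl
    | some y => simp [Z] at h
  | some x =>
    cases y with
    | none => simp [Z] at h
    | some y =>
      simp only [Z, Option.some.injEq] at h
      rw [h3 _ _ h]

/-- Same family. -/
lemma F_same {a b s t : ZMod M} (hab : a + b = 3) (h3 : Ca (3 : ZMod M)) (hb : Ca b)
    (hst : s ≠ t) (x : Option (ZMod M)) : F a b s x ≠ F a b t x := by
  intro h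
  cases x with
  | none =>
    simp only [F, Option.some.injEq] at h
    apply hst
    apply h3
    rw [← hab]
    linear_combination h
  | some x =>
    simp only [F] at h
    split_ifs at h with h1 h2 h2
    · exact hst (h1.symm.trans h2)
    · simp only [Option.some.injEq] at h
      exact hst (hb _ _ (add_left_cancel h))

/-- Different families. -/
lemma F_diff {a b a' b' s t : ZMod M} (hab : a + b = 3) (hab' : a' + b' = 3) (hb : Ca b)
    (hb' : Ca b') (hu : IsUnit (a - a')) : ∃ x, F a b s x = F a' b' t x := by
  by_cases hst : s = t
  · exact ⟨some t, by simp [F, hst]⟩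
  · obtain ⟨u, hu⟩ := hu
    set x : ZMod M := ((u⁻¹ : (ZMod M)ˣ) : ZMod M) * (b' * t - b * s) with hx
    have hx' : (a - a') * x = b' * t - b * s := by
      rw [hx, ← hu, ← mul_assoc, Units.mul_inv, one_mul]
    have h1 : x ≠ s := by
      intro h
      apply hst
      apply hb'
      rw [h] at hx'
      linear_combination hx' + s * hab' - s * hab
    have h2 : x ≠ t := by
      intro h
      apply hst
      apply hb
      rw [h] at hx'
      linear_combination hx' - t * hab + t * hab'
    refine ⟨some x, ?_⟩
    simp only [F, h1, h2, if_false, Option.some.injEq]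
    linear_combination hx'

/-- The isolated vertex. -/
lemma FZ {a b t : ZMod M} (hab : a + b = 3) (hb : Ca b) (x : Option (ZMod M)) :
    F a b t x ≠ Z x := by
  intro h
  cases x with
  | none => simp [F, Z] at h
  | some x =>
    simp only [F, Z] at h
    split_ifs at h with h1
    simp only [Option.some.injEq] at h
    apply h1
    apply hb
    linear_combination x * hab - h

/-- From rows on another set of points. -/
lemma rep_rows {V : Type} (H : SimpleGraph V) {N : ℕ} {P : Type} [Fintype P] [DecidableEq P]
    (hP : Fintype.card P = N) (row : V → P → P) (hinj : ∀ v, Function.Injective (row v))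
    (hrow : Function.Injective row)
    (hadj : ∀ u v, u ≠ v → (H.Adj u v ↔ ∃ i, row u i = row v i)) : Rep H N := by
  classical
  let e : P ≃ Fin N := Fintype.equivFinOfCardEq hP
  let π0 : V → Equiv.Perm P := fun v =>
    Equiv.ofBijective (row v) (Finite.injective_iff_bijective.mp (hinj v))
  refine ⟨fun v => (e.symm.trans (π0 v)).trans e, ?_, ?_⟩
  · intro u v h
    apply hrow
    funext p
    have h1 := congrArg (fun g : Equiv.Perm (Fin N) => g (e p)) h
    simpa [π0] using h1
  · intro u v huv
    rw [hadj u v huv]
    constructor
    · rintro ⟨i, hi⟩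
      exact ⟨e i, by simp [π0, hi]⟩
    · rintro ⟨i, hi⟩
      refine ⟨e.symm i, ?_⟩
      simpa [π0] using hi

lemma labels {V : Type} [Fintype V] (c : V → Fin 4) {M : ℕ} [NeZero M]
    (h : ∀ i : Fin 4, (Finset.univ.filter (fun v => c v = i)).card ≤ M) :
    ∃ t : V → ZMod M, ∀ u v, c u = c v → t u = t v → u = v := by
  classical
  have h1 : ∀ i : Fin 4, ∃ f : V → ZMod M, ∀ u v, c u = i → c v = i → f u = f v → u = v := by
    intro i
    have h2 : Fintype.card {v // c v = i} ≤ Fintype.card (ZMod M) := by
      rw [ZMod.card, Fintype.card_subtype]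
      exact h i
    obtain ⟨e⟩ := Function.Embedding.nonempty_of_card_le h2
    refine ⟨fun v => if hv : c v = i then e ⟨v, hv⟩ else 0, ?_⟩
    intro u v hu hv huv
    simp only [hu, hv, dif_pos] at huv
    have := e.injective huv
    simpa using this
  choose f hf using h1
  refine ⟨fun v => f (c v) v, ?_⟩
  intro u v huv h2
  simp only [huv] at h2
  exact hf (c v) u v huv rfl h2

end NAFF

open NAFF in
theorem pr_AFF : S_AFF := by
  classical
  intro M V _ H c hco h5 hA hcard
  have : NeZero M := ⟨by omega⟩
  have hc2 : Nat.Coprime 2 M := by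
    have : Nat.Coprime M (2 * 3) := hco
    exact (Nat.Coprime.coprime_mul_right_right this).symm
  have hc3 : Nat.Coprime 3 M := by
    have : Nat.Coprime M (2 * 3) := hco
    exact (Nat.Coprime.coprime_mul_left_right this).symm
  have u2 : IsUnit (2 : ZMod M) := by
    have := (ZMod.isUnit_iff_coprime 2 M).mpr hc2
    simpa using this
  have u3 : IsUnit (3 : ZMod M) := by
    have := (ZMod.isUnit_iff_coprime 3 M).mpr hc3
    simpa using this
  have u4 : IsUnit (4 : ZMod M) := by
    have : (4 : ZMod M) = 2 * 2 := by norm_num
    rw [this]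
    exact u2.mul u2
  have u1 : IsUnit (1 : ZMod M) := isUnit_one
  have h3 : Ca (3 : ZMod M) := Ca_of_unit u3
  obtain ⟨t, ht⟩ := labels c hcard
  obtain ⟨hA1, hA2⟩ := hA
  have hab : ∀ k : Fin 4, (ca k : ZMod M) + cb k = 3 := by
    intro k
    fin_cases k <;> simp [ca, cb] <;> ring
  have hca : ∀ k : Fin 4, Ca (ca k : ZMod M) := by
    intro k
    apply Ca_of_unit
    fin_cases k <;> simp [ca, u1, u2, u3]
  have hcb : ∀ k : Fin 4, k ≠ 3 → Ca (cb k : ZMod M) := by
    intro k hk
    apply Ca_of_unit
    fin_cases k <;> simp [cb, u1, u2, u4] at hk ⊢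
  have hdf : ∀ k l : Fin 4, k ≠ l → k ≠ 3 → l ≠ 3 → IsUnit ((ca k : ZMod M) - ca l) := by
    have e1 : (1 : ZMod M) - -1 = 2 := by ring
    have e2 : (1 : ZMod M) - 2 = -1 := by ring
    have e3 : (-1 : ZMod M) - 1 = -2 := by ring
    have e4 : (-1 : ZMod M) - 2 = -3 := by ring
    have e5 : (2 : ZMod M) - 1 = 1 := by ring
    have e6 : (2 : ZMod M) - -1 = 3 := by ring
    intro k l hkl hk hl
    fin_cases k <;> fin_cases l <;> simp only [ca] <;>
      first
        | exact absurd rfl hkl
        | exact absurd rfl hk
        | exact absurd rfl hl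
        | (change IsUnit ((1 : ZMod M) - -1); rw [e1]; exact u2)
        | (change IsUnit ((1 : ZMod M) - 2); rw [e2]; exact u1.neg)
        | (change IsUnit ((-1 : ZMod M) - 1); rw [e3]; exact u2.neg)
        | (change IsUnit ((-1 : ZMod M) - 2); rw [e4]; exact u3.neg)
        | (change IsUnit ((2 : ZMod M) - 1); rw [e5]; exact u1)
        | (change IsUnit ((2 : ZMod M) - -1); rw [e6]; exact u3)
  have hadj : ∀ u v, u ≠ v → (H.Adj u v ↔ ∃ i, R (c u) (t u) i = R (c v) (t v) i) := by
    intro u v huv
    rw [hA1]
    constructor
    · rintro ⟨h1, h2, h4⟩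
      simp only [R, h2, h4, if_false]
      exact F_diff (hab _) (hab _) (hcb _ h2) (hcb _ h4) (hdf _ _ h1 h2 h4)
    · rintro ⟨i, hi⟩
      by_cases hu3 : c u = 3
      · by_cases hv3 : c v = 3
        · exact absurd (hA2 u v hu3 hv3) huv
        · exfalso
          simp only [R, hu3, hv3, if_true, if_false] at hi
          exact FZ (hab _) (hcb _ hv3) i hi.symm
      · by_cases hv3 : c v = 3
        · exfalso
          simp only [R, hu3, hv3, if_true, if_false] at hi
          exact FZ (hab _) (hcb _ hu3) i hi
        · refine ⟨?_, hu3, hv3⟩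
          intro h
          simp only [R, hu3, hv3, if_false] at hi
          rw [h] at hi
          exact F_same (hab _) h3 (hcb _ hv3) (fun h' => huv (ht u v h h')) i hi
  have hcardP : Fintype.card (Option (ZMod M)) = M + 1 := by
    rw [Fintype.card_option, ZMod.card]
  refine rep_rows H hcardP (fun v => R (c v) (t v)) ?_ ?_ hadj
  · intro v
    simp only [R]
    split_ifs with h
    · exact Z_inj h3
    · exact F_inj (hca _)
  · intro u v huv
    by_contra hne
    have huv' : R (c u) (t u) = R (c v) (t v) := huv
    have h1 : H.Adj u v := (hadj u v hne).mpr ⟨none, by rw [huv']⟩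
    -- three points give a contradiction: rows of different families agree only once
    obtain ⟨h2, h4, h6⟩ := (hA1 u v).mp h1
    simp only [R, h4, h6, if_false] at huv'
    have h7 := congrFun huv' none
    simp only [F, Option.some.injEq] at h7
    have h8 : t u = t v := by
      apply h3
      have e1 := hab (c u)
      have e2 := hab (c v)
      linear_combination h7 - t u * e1 + t v * e2
    -- compare at another point
    have h9 := congrFun huv' (some (t v + 1))
    have hne1 : t v + 1 ≠ t v := by
      intro h
      have h10 : (1 : ZMod M) = 0 := by linear_combination h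
      have : Fact (1 < M) := ⟨by omega⟩
      exact one_ne_zero h10
    simp only [F, h8, hne1, if_false, Option.some.injEq] at h9
    have e1 := hab (c u)
    have e2 := hab (c v)
    have h11 : (ca (c u) : ZMod M) - ca (c v) = 0 := by
      linear_combination h9 - t v * e1 + t v * e2
    have h12 := hdf _ _ h2 h4 h6
    rw [h11] at h12
    have : Fact (1 < M) := ⟨by omega⟩
    exact not_isUnit_zero h12

end Pool.Agent.Work.MP_12b649_co.Even
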