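import Mathlib
import Pool.Agent.Work.MP_12b649_co.Even.StmtsB

/-!
# C4: the component of an induced cycle of length four
-/

namespace Pool.Agent.Work.MP_12b649_co.Even

namespace C4

/-- An induced cycle of length four. -/
structure Q {V : Type} (H : SimpleGraph V) (a1 b1 a2 b2 : V) : Prop where
  h1 : H.Adj a1 b1
  h2 : H.Adj b1 a2
  h3 : H.Adj a2 b2
  h4 : H.Adj b2 a1
  n1 : a1 ≠ a2
  n2 : b1 ≠ b2
  m1 : ¬ H.Adj a1 a2
  m2 : ¬ H.Adj b1 b2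

variable {V : Type} {H : SimpleGraph V}

lemma Q.rot {a1 b1 a2 b2 : V} (q : Q H a1 b1 a2 b2) : Q H b1 a2 b2 a1 :=
  ⟨q.h2, q.h3, q.h4, q.h1, q.n2, q.n1.symm, q.m2, fun h => q.m1 h.symm⟩

lemma Q.swb {a1 b1 a2 b2 : V} (q : Q H a1 b1 a2 b2) : Q H a1 b2 a2 b1 :=
  ⟨q.h4.symm, q.h3.symm, q.h2.symm, q.h1.symm, q.n1, q.n2.symm, q.m1, fun h => q.m2 h.symm⟩

lemma cons (hn : NoT2 H) {a1 b1 a2 b2 v : V} (q : Q H a1 b1 a2 b2) (va1 : H.Adj v a1)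
    (vb1 : H.Adj v b1) (va2 : ¬ H.Adj v a2) (vb2 : ¬ H.Adj v b2) (e1 : v ≠ a2) (e2 : v ≠ b2) :
    False := by
  have d1 : Dd H v a1 b2 := fun h => vb2 (h.mpr q.h4.symm)
  have d2 : Dd H b1 a2 b2 := fun h => q.m2 (h.mpr q.h3)
  exact opaw hn (p1 := v) (q1 := a1) (p2 := b1) (q2 := a2) (v := b2) (w1 := b2) va1 q.h2 vb1
    q.h1 va2 q.m1 e1 q.n1 e2.symm q.h4.ne d1 e2.symm q.h4.ne q.n2.symm q.h3.ne'
    (iff_of_true d1 d2)

lemma fst (hn : NoT2 H) {a1 b1 a2 b2 v : V} (q : Q H a1 b1 a2 b2) (h : H.Adj v a1) :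
    H.Adj v a2 := by
  by_contra hv
  have e1 : v ≠ a1 := h.ne
  have e2 : v ≠ a2 := by
    rintro rfl; exact q.m1 h.symm
  have e3 : v ≠ b1 := by
    rintro rfl; exact hv q.h2
  have e4 : v ≠ b2 := by
    rintro rfl; exact hv q.h3.symm
  have hk := ec4 hn q.h1 q.h2 q.h3 q.h4 q.n1 q.n2 q.m1 q.m2 e1 e3 e2 e4
  have h' := h.symm
  have hv' : ¬ H.Adj a2 v := fun x => hv x.symm
  simp only [Dd, h', hv', true_iff, false_iff, not_not] at hk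
  by_cases y1 : H.Adj b1 v
  · have y2 : ¬ H.Adj b2 v := fun y => hk.mpr y y1
    exact cons hn q h y1.symm hv (fun x => y2 x.symm) e2 e4
  · have y2 : H.Adj b2 v := hk.mp y1
    exact cons hn q.swb h y2.symm hv (fun x => y1 x.symm) e2 e3

lemma both (hn : NoT2 H) {a1 b1 a2 b2 : V} (q : Q H a1 b1 a2 b2) (v : V) :
    H.Adj v a1 ↔ H.Adj v a2 :=
  ⟨fst hn q, fst hn q.rot.rot⟩

/-- A vertex which sees `b1` and not `a1` has the neighbours of `a1`. -/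
lemma g0 (hn : NoT2 H) {a1 b1 a2 b2 : V} (q : Q H a1 b1 a2 b2) {u : V} (ub : H.Adj u b1)
    (ua : ¬ H.Adj u a1) (v : V) : H.Adj v u ↔ H.Adj v a1 := by
  by_cases e : u = a1
  · rw [e]
  · have ub2 : H.Adj u b2 := (both hn q.rot u).mp ub
    exact both hn (a1 := u) (b1 := b1) (a2 := a1) (b2 := b2)
      ⟨ub, q.h1.symm, q.h4.symm, ub2.symm, e, q.n2, ua, q.m2⟩ v

end C4

open C4 in
theorem pr_C4 : S_C4 := by
  intro V H a1 b1 a2 b2 hn h1 h2 h3 h4 n1 n2 m1 m2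
  classical
  have q : Q H a1 b1 a2 b2 := ⟨h1, h2, h3, h4, n1, n2, m1, m2⟩
  have q' : Q H b1 a1 b2 a2 := q.swb.rot.rot.rot
  have ha : ∀ v, H.Adj v a1 ↔ H.Adj v a2 := both hn q
  have hb : ∀ v, H.Adj v b1 ↔ H.Adj v b2 := both hn q'
  have G0 : ∀ u v, H.Adj u b1 → ¬ H.Adj u a1 → (H.Adj v u ↔ H.Adj v a1) :=
    fun u v x y => g0 hn q x y v
  have G1 : ∀ u v, H.Adj u a1 → ¬ H.Adj u b1 → (H.Adj v u ↔ H.Adj v b1) :=
    fun u v x y => g0 hn q' x y v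
  have G2 : ∀ u v, H.Adj u a1 → H.Adj u b1 → H.Adj v a1 → H.Adj v b1 → ¬ H.Adj u v := by
    intro u v ua ub va vb huv
    have ua2 := (ha u).mp ua
    have vb2 := (hb v).mp vb
    have va2 := (ha v).mp va
    have d1 : Dd H u a1 a2 := fun h => m1 (h.mp ua2)
    have d2 : Dd H v b1 b2 := fun h => m2 (h.mp vb2)
    have d3 : ¬ Dd H v b1 a2 := fun h => h (iff_of_true va2 h2)
    exact d3 ((ek4 hn (p1 := u) (q1 := a1) (p2 := v) (q2 := b1) (v := a2) (w1 := a2) (w2 := b2)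
      ua vb huv ub va.symm h1 ua2.ne' n1.symm d1 vb2.ne' n2.symm d2 ua2.ne' n1.symm va2.ne'
      h2.ne').mp d1)
  have G3 : ∀ u v, H.Adj u a1 → H.Adj u b1 → ¬ H.Adj v a1 → ¬ H.Adj v b1 → ¬ H.Adj u v := by
    intro u w ua ub wa wb huw
    have ua2 := (ha u).mp ua
    have wa2 : ¬ H.Adj w a2 := fun h => wa ((ha w).mpr h)
    have d1 : Dd H a1 b1 a2 := fun h => m1 (h.mpr h2)
    have d2 : Dd H u w a2 := fun h => wa2 (h.mp ua2)
    refine opaw hn (p1 := a1) (q1 := b1) (p2 := u) (q2 := w) (v := a2) (w1 := a2) h1 huw ua.symm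
      ub.symm (fun h => wa h.symm) (fun h => wb h.symm) ?_ ?_ n1.symm h2.ne' d1 n1.symm h2.ne'
      ua2.ne' ?_ (iff_of_true d1 d2)
    · rintro rfl; exact wb h1
    · rintro rfl; exact wa h1.symm
    · rintro rfl; exact wb h2.symm
  let c : V → Fin 4 := fun v =>
    if H.Adj v a1 then (if H.Adj v b1 then 2 else 1) else (if H.Adj v b1 then 0 else 3)
  have hc : ∀ v, c v =
      if H.Adj v a1 then (if H.Adj v b1 then 2 else 1) else (if H.Adj v b1 then 0 else 3) :=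
    fun v => rfl
  have cases : ∀ v, (H.Adj v a1 ∧ H.Adj v b1 ∧ c v = 2) ∨ (H.Adj v a1 ∧ ¬ H.Adj v b1 ∧ c v = 1) ∨
      (¬ H.Adj v a1 ∧ H.Adj v b1 ∧ c v = 0) ∨ (¬ H.Adj v a1 ∧ ¬ H.Adj v b1 ∧ c v = 3) := by
    intro v
    rw [hc]
    by_cases x : H.Adj v a1 <;> by_cases y : H.Adj v b1 <;> simp [x, y]
  have hbb : ¬ H.Adj b2 b1 := fun h => m2 h.symm
  have haa : ¬ H.Adj a2 a1 := fun h => m1 h.symm
  refine ⟨c, ?_, ?_, ?_, ?_, ?_, ?_⟩
  · rw [hc]; simp [h1]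
  · rw [hc]; simp [haa, h2.symm]
  · rw [hc]; simp [h1.symm]
  · rw [hc]; simp [h4, hbb]
  · intro u v hu hv
    rcases cases u with ⟨ua, ub, e⟩ | ⟨ua, ub, e⟩ | ⟨ua, ub, e⟩ | ⟨ua, ub, e⟩
    · rcases cases v with ⟨va, vb, f⟩ | ⟨va, vb, f⟩ | ⟨va, vb, f⟩ | ⟨va, vb, f⟩
      · rw [e, f]; simpa using G2 u v ua ub va vb
      · rw [e, f]; simpa using (G1 v u va vb).mpr ub
      · rw [e, f]; simpa using (G0 v u vb va).mpr ua
      · exact absurd f hv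
    · rw [SimpleGraph.adj_comm, G1 u v ua ub]
      rcases cases v with ⟨va, vb, f⟩ | ⟨va, vb, f⟩ | ⟨va, vb, f⟩ | ⟨va, vb, f⟩
      · rw [e, f]; simpa using vb
      · rw [e, f]; simpa using vb
      · rw [e, f]; simpa using vb
      · exact absurd f hv
    · rw [SimpleGraph.adj_comm, G0 u v ub ua]
      rcases cases v with ⟨va, vb, f⟩ | ⟨va, vb, f⟩ | ⟨va, vb, f⟩ | ⟨va, vb, f⟩
      · rw [e, f]; simpa using va
      · rw [e, f]; simpa using va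
      · rw [e, f]; simpa using va
      · exact absurd f hv
    · exact absurd e hu
  · intro u v hu hv
    rcases cases v with ⟨va, vb, f⟩ | ⟨va, vb, f⟩ | ⟨va, vb, f⟩ | ⟨va, vb, f⟩
    · rw [f] at hv; simp at hv
    · rw [f] at hv; simp at hv
    · rw [f] at hv; simp at hv
    · rcases cases u with ⟨ua, ub, e⟩ | ⟨ua, ub, e⟩ | ⟨ua, ub, e⟩ | ⟨ua, ub, e⟩
      · exact G3 u v ua ub va vb
      · rw [SimpleGraph.adj_comm, G1 u v ua ub]; exact vb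
      · rw [SimpleGraph.adj_comm, G0 u v ub ua]; exact va
      · exact absurd e hu

end Pool.Agent.Work.MP_12b649_co.Even
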