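import Mathlib
import Pool.Agent.Work.MP_12b649_co.Even.Stmts
import Pool.Agent.Work.MP_12b649_co.Bd.B03

/-!
# STAR: the prolongation at a symbol
-/

namespace Pool.Agent.Work.MP_12b649_co.Even

open Pool.Agent.Work.MP_12b649_co

namespace Star

variable {N : ℕ} (K : Kotzig N) {V : Type} (o : K.V) (φ : V → K.V) (τ : K.J → V → Bool)
  (st : V → St)

open Classical in
/-- The prolonged rows. -/
noncomputable def row (a : V) (x : Option (Option (K.J × Bool))) : Option K.C :=
  match x with
  | none => match st a with
    | St.D => some (K.col (φ a) o)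
    | St.U => none
    | St.S => some (K.col (φ a) (φ a))
  | some s => match st a with
    | St.D => if Ev.srow K φ τ a s = K.col (φ a) o then none else some (Ev.srow K φ τ a s)
    | St.U => some (Ev.srow K φ τ a s)
    | St.S => match s with
      | none => none
      | some p => some (Ev.srow K φ τ a (some p))

variable {K o φ τ st}

lemma nD {a : V} (h : st a = St.D) : row K o φ τ st a none = some (K.col (φ a) o) := by
  simp [row, h]

lemma nU {a : V} (h : st a = St.U) : row K o φ τ st a none = none := by
  simp [row, h]

lemma nS {a : V} (h : st a = St.S) : row K o φ τ st a none = some (K.col (φ a) (φ a)) := by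
  simp [row, h]

lemma sU {a : V} (h : st a = St.U) (s : Option (K.J × Bool)) :
    row K o φ τ st a (some s) = some (Ev.srow K φ τ a s) := by
  simp [row, h]

lemma sSn {a : V} (h : st a = St.S) : row K o φ τ st a (some none) = none := by
  simp [row, h]

lemma sSs {a : V} (h : st a = St.S) (p : K.J × Bool) :
    row K o φ τ st a (some (some p)) = some (Ev.srow K φ τ a (some p)) := by
  simp [row, h]

lemma sD0 {a : V} (h : st a = St.D) {s : Option (K.J × Bool)}
    (hs : Ev.srow K φ τ a s = K.col (φ a) o) : row K o φ τ st a (some s) = none := by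
  simp [row, h, hs]

lemma sD1 {a : V} (h : st a = St.D) {s : Option (K.J × Bool)}
    (hs : Ev.srow K φ τ a s ≠ K.col (φ a) o) :
    row K o φ τ st a (some s) = some (Ev.srow K φ τ a s) := by
  simp [row, h, hs]

lemma diag_ne {a : V} (ho : φ a ≠ o) : Ev.srow K φ τ a none ≠ K.col (φ a) o := by
  rw [Ev.srow_none]
  intro h
  exact ho (K.col_inj _ h)

/-- For a row which is not displaced at the value in question, the prolonged row is the
standard row. -/
lemma s_some {a : V} (p : K.J × Bool) (hs : st a = St.D → Ev.srow K φ τ a (some p) ≠ K.col (φ a) o) :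
    row K o φ τ st a (some (some p)) = some (Ev.srow K φ τ a (some p)) := by
  cases h : st a with
  | D => exact sD1 h (hs h)
  | U => exact sU h _
  | S => exact sSs h _

/-- A value of the prolonged row which is not `none` is the value of the standard row. -/
lemma s_some_of {a : V} {p : K.J × Bool} {c : K.C}
    (hs : row K o φ τ st a (some (some p)) = some c) : Ev.srow K φ τ a (some p) = c := by
  cases h : st a with
  | D =>
    by_cases h1 : Ev.srow K φ τ a (some p) = K.col (φ a) o
    · rw [sD0 h h1] at hs; exact absurd hs (by simp)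
    · rw [sD1 h h1] at hs; exact Option.some.inj hs
  | U => rw [sU h] at hs; exact Option.some.inj hs
  | S => rw [sSs h] at hs; exact Option.some.inj hs

lemma s_none_of {a : V} {p : K.J × Bool}
    (hs : row K o φ τ st a (some (some p)) = none) :
    st a = St.D ∧ Ev.srow K φ τ a (some p) = K.col (φ a) o := by
  cases h : st a with
  | D =>
    by_cases h1 : Ev.srow K φ τ a (some p) = K.col (φ a) o
    · exact ⟨rfl, h1⟩
    · rw [sD1 h h1] at hs; exact absurd hs (by simp)
  | U => rw [sU h] at hs; exact absurd hs (by simp)
  | S => rw [sSs h] at hs; exact absurd hs (by simp)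

/-- The value at `some none` of a row which is not of status `S`. -/
lemma sn_diag {a : V} (h : st a ≠ St.S) (hD : st a = St.D → φ a ≠ o) :
    row K o φ τ st a (some none) = some (K.col (φ a) (φ a)) := by
  cases h' : st a with
  | D => rw [sD1 h' (diag_ne (hD h')), Ev.srow_none]
  | U => rw [sU h', Ev.srow_none]
  | S => exact absurd h' h

lemma row_inj (h1 : ∀ a, φ a = o → st a ≠ St.D) (a : V) :
    Function.Injective (row K o φ τ st a) := by
  have hb := Ev.srow_inj K φ τ a
  intro x y hxy
  cases h : st a with
  | D =>
    have ho : φ a ≠ o := fun h' => h1 a h' h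
    -- two values which are both not `none`
    have key : ∀ s : Option (K.J × Bool), row K o φ τ st a (some s) ≠ some (K.col (φ a) o) := by
      intro s hs
      by_cases h2 : Ev.srow K φ τ a s = K.col (φ a) o
      · rw [sD0 h h2] at hs; exact absurd hs (by simp)
      · rw [sD1 h h2] at hs; exact h2 (Option.some.inj hs)
    rcases x with _ | s <;> rcases y with _ | s'
    · rfl
    · rw [nD h] at hxy; exact absurd hxy.symm (key s')
    · rw [nD h] at hxy; exact absurd hxy (key s)
    · by_cases h2 : Ev.srow K φ τ a s = K.col (φ a) o <;>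
        by_cases h3 : Ev.srow K φ τ a s' = K.col (φ a) o
      · rw [hb (h2.trans h3.symm)]
      · rw [sD0 h h2, sD1 h h3] at hxy; exact absurd hxy (by simp)
      · rw [sD1 h h2, sD0 h h3] at hxy; exact absurd hxy (by simp)
      · rw [sD1 h h2, sD1 h h3] at hxy; rw [hb (Option.some.inj hxy)]
  | U =>
    rcases x with _ | s <;> rcases y with _ | s'
    · rfl
    · rw [nU h, sU h] at hxy; exact absurd hxy (by simp)
    · rw [nU h, sU h] at hxy; exact absurd hxy (by simp)
    · rw [sU h, sU h] at hxy; rw [hb (Option.some.inj hxy)]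
  | S =>
    have key : ∀ p : K.J × Bool, Ev.srow K φ τ a (some p) ≠ K.col (φ a) (φ a) := by
      intro p hp
      rw [← Ev.srow_none K φ τ a] at hp
      exact absurd (hb hp) (by simp)
    rcases x with _ | _ | p <;> rcases y with _ | _ | p'
    · rfl
    · rw [nS h, sSn h] at hxy; exact absurd hxy (by simp)
    · rw [nS h, sSs h] at hxy; exact absurd (Option.some.inj hxy).symm (key p')
    · rw [nS h, sSn h] at hxy; exact absurd hxy (by simp)
    · rfl
    · rw [sSn h, sSs h] at hxy; exact absurd hxy (by simp)
    · rw [nS h, sSs h] at hxy; exact absurd (Option.some.inj hxy) (key p)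
    · rw [sSn h, sSs h] at hxy; exact absurd hxy (by simp)
    · rw [sSs h, sSs h] at hxy; rw [hb (Option.some.inj hxy)]

/-- The status of `a` is visible in the values at `none` and `some none`. -/
lemma st_eq (h1 : ∀ a, φ a = o → st a ≠ St.D) {a b : V}
    (e1 : row K o φ τ st a none = row K o φ τ st b none)
    (e2 : row K o φ τ st a (some none) = row K o φ τ st b (some none)) : st a = st b := by
  have hD : ∀ c, st c = St.D → φ c ≠ o := fun c hc ho => h1 c ho hc
  cases ha : st a with
  | D =>
    cases hb : st b with
    | D => rfl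
    | U => rw [nD ha, nU hb] at e1; exact absurd e1 (by simp)
    | S =>
      rw [sn_diag (by rw [ha]; simp) (hD a), sSn hb] at e2; exact absurd e2 (by simp)
  | U =>
    cases hb : st b with
    | D => rw [nU ha, nD hb] at e1; exact absurd e1 (by simp)
    | U => rfl
    | S => rw [nU ha, nS hb] at e1; exact absurd e1 (by simp)
  | S =>
    cases hb : st b with
    | D =>
      rw [sSn ha, sn_diag (by rw [hb]; simp) (hD b)] at e2; exact absurd e2 (by simp)
    | U => rw [nS ha, nU hb] at e1; exact absurd e1 (by simp)
    | S => rfl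

lemma row_ne (h1 : ∀ a, φ a = o → st a ≠ St.D)
    (h11 : ∀ a b, a ≠ b → φ a = φ b → st a = st b → ∃ j, τ j a ≠ τ j b) {a b : V} (hab : a ≠ b) :
    ∃ s, row K o φ τ st a s ≠ row K o φ τ st b s := by
  by_contra hc
  have hc : ∀ s, row K o φ τ st a s = row K o φ τ st b s := by
    intro s; by_contra h; exact hc ⟨s, h⟩
  have hst := st_eq h1 (hc none) (hc (some none))
  have hφ : φ a = φ b := by
    cases ha : st a with
    | D =>
      have hb : st b = St.D := by rw [← hst]; exact ha
      have := hc none
      rw [nD ha, nD hb, K.col_comm (φ a), K.col_comm (φ b)] at this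
      exact K.col_inj _ (Option.some.inj this)
    | U =>
      have hb : st b = St.U := by rw [← hst]; exact ha
      have := hc (some none)
      rw [sU ha, sU hb] at this
      exact K.diag_inj (Option.some.inj this)
    | S =>
      have hb : st b = St.S := by rw [← hst]; exact ha
      have := hc none
      rw [nS ha, nS hb] at this
      exact K.diag_inj (Option.some.inj this)
  obtain ⟨j, hj⟩ := h11 a b hab hφ hst
  have hd := Ev.srow_diff K φ τ hφ hj true
  have h2 := hc (some (some (j, true)))
  cases hx : row K o φ τ st a (some (some (j, true))) with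
  | none =>
    rw [hx] at h2
    obtain ⟨-, e1⟩ := s_none_of hx
    obtain ⟨-, e2⟩ := s_none_of h2.symm
    exact hd (by rw [e1, e2, hφ])
  | some c =>
    rw [hx] at h2
    exact hd ((s_some_of hx).trans (s_some_of h2.symm).symm)

section

variable (h1 : ∀ a, φ a = o → st a ≠ St.D)

include h1

/-- Case of two different symbols, both different from `o`. -/
lemma caseA_mp {H : SimpleGraph V}
    (h4 : ∀ j a b, K.f j (φ a) = φ b → φ a ≠ o → φ b ≠ o → (τ j a ≠ τ j b ↔ H.Adj a b))
    {a b : V} (ha : φ a ≠ o) (hb : φ b ≠ o) (hab : φ a ≠ φ b) (hA : H.Adj a b) :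
    ∃ s, row K o φ τ st a s = row K o φ τ st b s := by
  have key : ∀ a b : V, φ a ≠ o → φ b ≠ o → H.Adj a b → (∃ j, K.f j (φ a) = φ b) →
      ∃ s, row K o φ τ st a s = row K o φ τ st b s := by
    rintro a b ha hb hA ⟨j, hj⟩
    have ht := (h4 j a b hj ha hb).mpr hA
    obtain ⟨e1, e2⟩ := Ev.srow_meet K φ τ hj ht
    refine ⟨some (some (j, τ j a)), ?_⟩
    rw [s_some, s_some, e1, e2]
    · intro _ h
      rw [e2, K.col_comm] at h
      exact ha (K.col_inj _ h)
    · intro _ h
      rw [e1] at h
      exact hb (K.col_inj _ h)
  obtain ⟨j, hj | hj⟩ := K.cover (φ a) (φ b) hab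
  · exact key a b ha hb hA ⟨j, hj⟩
  · obtain ⟨s, hs⟩ := key b a hb ha hA.symm ⟨j, hj⟩
    exact ⟨s, hs.symm⟩

lemma caseA_mpr {H : SimpleGraph V}
    (h4 : ∀ j a b, K.f j (φ a) = φ b → φ a ≠ o → φ b ≠ o → (τ j a ≠ τ j b ↔ H.Adj a b))
    (h5 : ∀ j a b, K.f j (φ a) = o → K.f j o = φ b → st a = St.D → st b = St.D → ¬ H.Adj a b →
      τ j a = τ j b)
    (h6 : ∀ a b, a ≠ b → st a = St.U → st b = St.U → H.Adj a b)
    (h7 : ∀ a b, a ≠ b → st a = St.S → st b = St.S → H.Adj a b)
    (h8 : ∀ a b, st a = St.D → st b = St.S → K.col (φ a) o = K.col (φ b) (φ b) → H.Adj a b)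
    {a b : V} (ha : φ a ≠ o) (hb : φ b ≠ o) (hab : φ a ≠ φ b)
    (hs : ∃ s, row K o φ τ st a s = row K o φ τ st b s) : H.Adj a b := by
  have hne : a ≠ b := fun h => hab (by rw [h])
  obtain ⟨s, hs⟩ := hs
  rcases s with _ | _ | p
  · cases ea : st a with
    | D =>
      cases eb : st b with
      | D =>
        rw [nD ea, nD eb, K.col_comm (φ a), K.col_comm (φ b)] at hs
        exact absurd (K.col_inj _ (Option.some.inj hs)) hab
      | U => rw [nD ea, nU eb] at hs; exact absurd hs (by simp)
      | S => rw [nD ea, nS eb] at hs; exact h8 a b ea eb (Option.some.inj hs)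
    | U =>
      cases eb : st b with
      | D => rw [nU ea, nD eb] at hs; exact absurd hs (by simp)
      | U => exact h6 a b hne ea eb
      | S => rw [nU ea, nS eb] at hs; exact absurd hs (by simp)
    | S =>
      cases eb : st b with
      | D => rw [nS ea, nD eb] at hs; exact (h8 b a eb ea (Option.some.inj hs).symm).symm
      | U => rw [nS ea, nU eb] at hs; exact absurd hs (by simp)
      | S => exact h7 a b hne ea eb
  · by_cases ea : st a = St.S <;> by_cases eb : st b = St.S
    · exact h7 a b hne ea eb
    · rw [sSn ea, sn_diag eb (fun _ => hb)] at hs; exact absurd hs (by simp)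
    · rw [sSn eb, sn_diag ea (fun _ => ha)] at hs; exact absurd hs (by simp)
    · rw [sn_diag ea (fun _ => ha), sn_diag eb (fun _ => hb)] at hs
      exact absurd (K.diag_inj (Option.some.inj hs)) hab
  · cases hx : row K o φ τ st a (some (some p)) with
    | none =>
      rw [hx] at hs
      obtain ⟨da, e1⟩ := s_none_of hx
      obtain ⟨db, e2⟩ := s_none_of hs.symm
      obtain ⟨j, c⟩ := p
      rw [Ev.srow_some] at e1 e2
      have e1 := K.col_inj _ e1
      have e2 := K.col_inj _ e2
      by_contra hA
      unfold Kotzig.nb at e1 e2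
      by_cases c1 : c = τ j a <;> by_cases c2 : c = τ j b
      · simp only [decide_eq_true c1, decide_eq_true c2, if_true] at e1 e2
        exact hab ((K.f j).injective (e1.trans e2.symm))
      · simp only [decide_eq_true c1, decide_eq_false c2, if_true, Bool.false_eq_true,
          if_false] at e1 e2
        have e3 : K.f j o = φ b := by rw [← e2, Equiv.apply_symm_apply]
        have := h5 j a b e1 e3 da db hA
        exact c2 (c1.trans this)
      · simp only [decide_eq_false c1, decide_eq_true c2, if_true, Bool.false_eq_true,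
          if_false] at e1 e2
        have e3 : K.f j o = φ a := by rw [← e1, Equiv.apply_symm_apply]
        have := h5 j b a e2 e3 db da (fun h => hA h.symm)
        exact c1 (c2.trans this)
      · simp only [decide_eq_false c1, decide_eq_false c2, Bool.false_eq_true,
          if_false] at e1 e2
        exact hab ((K.f j).symm.injective (e1.trans e2.symm))
    | some c =>
      rw [hx] at hs
      have e := (s_some_of hx).trans (s_some_of hs.symm).symm
      obtain ⟨j, d, -, -, h | h⟩ := Ev.srow_agree K φ τ hab e
      · exact (h4 j a b h.1 ha hb).mp (fun h' => h.2.2 (h.2.1.trans h'))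
      · exact ((h4 j b a h.1 hb ha).mp (fun h' => h.2.2 (h.2.1.trans h'))).symm

lemma caseB {H : SimpleGraph V}
    (h3 : ∀ a b, φ a = φ b → φ a ≠ o → st a = St.S → st b ≠ St.S → ∃ j, τ j a = τ j b)
    {a b : V} (ha : φ a ≠ o) (hab : φ a = φ b) :
    ∃ s, row K o φ τ st a s = row K o φ τ st b s := by
  have hb : φ b ≠ o := by rw [← hab]; exact ha
  have key : ∀ a b : V, φ a ≠ o → φ a = φ b → st a = St.S → st b ≠ St.S →
      ∃ s, row K o φ τ st a s = row K o φ τ st b s := by
    intro a b ha hab ea eb
    obtain ⟨j, hj⟩ := h3 a b hab ha ea eb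
    have hs : ∀ c, Ev.srow K φ τ a (some (j, c)) = Ev.srow K φ τ b (some (j, c)) := fun c =>
      Ev.srow_same K φ τ hab hj c
    have hc : ∃ c, Ev.srow K φ τ b (some (j, c)) ≠ K.col (φ b) o := by
      by_contra hc
      have hc : ∀ c, Ev.srow K φ τ b (some (j, c)) = K.col (φ b) o := by
        intro c; by_contra h; exact hc ⟨c, h⟩
      have := Ev.srow_inj K φ τ b ((hc true).trans (hc false).symm)
      simp at this
    obtain ⟨c, hc⟩ := hc
    refine ⟨some (some (j, c)), ?_⟩
    rw [sSs ea, s_some _ (fun _ => hc), hs c]
  by_cases ea : st a = St.S <;> by_cases eb : st b = St.S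
  · exact ⟨some none, by rw [sSn ea, sSn eb]⟩
  · exact key a b ha hab ea eb
  · obtain ⟨s, hs⟩ := key b a hb hab.symm eb ea
    exact ⟨s, hs.symm⟩
  · exact ⟨some none, by rw [sn_diag ea (fun _ => ha), sn_diag eb (fun _ => hb), hab]⟩

lemma caseC {a b : V} (ha : φ a = o) (hb : φ b = o) :
    (∃ s, row K o φ τ st a s = row K o φ τ st b s) ↔ (st a = st b ∨ ∃ j, τ j a = τ j b) := by
  have da := h1 a ha
  have db := h1 b hb
  have hab : φ a = φ b := ha.trans hb.symm
  constructor
  · rintro ⟨s, hs⟩
    rcases s with _ | _ | ⟨j, c⟩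
    · left
      cases ea : st a with
      | D => exact absurd ea da
      | U =>
        cases eb : st b with
        | D => exact absurd eb db
        | U => rfl
        | S => rw [nU ea, nS eb] at hs; exact absurd hs (by simp)
      | S =>
        cases eb : st b with
        | D => exact absurd eb db
        | U => rw [nS ea, nU eb] at hs; exact absurd hs (by simp)
        | S => rfl
    · left
      cases ea : st a with
      | D => exact absurd ea da
      | U =>
        cases eb : st b with
        | D => exact absurd eb db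
        | U => rfl
        | S => rw [sU ea, sSn eb] at hs; exact absurd hs (by simp)
      | S =>
        cases eb : st b with
        | D => exact absurd eb db
        | U => rw [sSn ea, sU eb] at hs; exact absurd hs (by simp)
        | S => rfl
    · right
      refine ⟨j, ?_⟩
      rw [s_some _ (fun h => absurd h da), s_some _ (fun h => absurd h db)] at hs
      by_contra hj
      exact Ev.srow_diff K φ τ hab hj c (Option.some.inj hs)
  · rintro (h | ⟨j, hj⟩)
    · cases ea : st a with
      | D => exact absurd ea da
      | U =>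
        have eb : st b = St.U := by rw [← h]; exact ea
        exact ⟨none, by rw [nU ea, nU eb]⟩
      | S =>
        have eb : st b = St.S := by rw [← h]; exact ea
        exact ⟨some none, by rw [sSn ea, sSn eb]⟩
    · refine ⟨some (some (j, true)), ?_⟩
      rw [s_some _ (fun h => absurd h da), s_some _ (fun h => absurd h db),
        Ev.srow_same K φ τ hab hj true]

lemma caseD {a b : V} (ha : φ a = o) (hb : φ b ≠ o) :
    (∃ s, row K o φ τ st a s = row K o φ τ st b s) ↔ (st a = st b ∨
      (st b ≠ St.D ∧ ∃ j, (K.f j o = φ b ∨ K.f j (φ b) = o) ∧ τ j a ≠ τ j b)) := by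
  have da := h1 a ha
  have hab : φ a ≠ φ b := by rw [ha]; exact fun h => hb h.symm
  constructor
  · rintro ⟨s, hs⟩
    rcases s with _ | _ | p
    · left
      cases ea : st a with
      | D => exact absurd ea da
      | U =>
        cases eb : st b with
        | D => rw [nU ea, nD eb] at hs; exact absurd hs (by simp)
        | U => rfl
        | S => rw [nU ea, nS eb] at hs; exact absurd hs (by simp)
      | S =>
        cases eb : st b with
        | D =>
          rw [nS ea, nD eb, ha, K.col_comm (φ b)] at hs
          exact absurd (K.col_inj _ (Option.some.inj hs)).symm hb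
        | U => rw [nS ea, nU eb] at hs; exact absurd hs (by simp)
        | S => rfl
    · left
      by_cases ea : st a = St.S <;> by_cases eb : st b = St.S
      · rw [ea, eb]
      · rw [sSn ea, sn_diag eb (fun _ => hb)] at hs; exact absurd hs (by simp)
      · rw [sSn eb, sn_diag ea (fun h => absurd h da)] at hs; exact absurd hs (by simp)
      · rw [sn_diag ea (fun h => absurd h da), sn_diag eb (fun _ => hb)] at hs
        exact absurd (K.diag_inj (Option.some.inj hs)) hab
    · right
      rw [s_some _ (fun h => absurd h da)] at hs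
      have e := s_some_of hs.symm
      obtain ⟨j, c, hp, he, h⟩ := Ev.srow_agree K φ τ hab e.symm
      refine ⟨?_, j, ?_⟩
      · intro hD
        rw [he, ha] at e
        rw [sD0 hD (by rw [e, K.col_comm])] at hs
        exact absurd hs (by simp)
      · rcases h with h | h
        · refine ⟨Or.inl (by rw [← ha]; exact h.1), fun h' => h.2.2 (h.2.1.trans h')⟩
        · refine ⟨Or.inr (by rw [h.1, ha]), fun h' => h.2.2 (h.2.1.trans h'.symm)⟩
  · rintro (h | ⟨hD, j, hj, ht⟩)
    · cases ea : st a with
      | D => exact absurd ea da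
      | U =>
        have eb : st b = St.U := by rw [← h]; exact ea
        exact ⟨none, by rw [nU ea, nU eb]⟩
      | S =>
        have eb : st b = St.S := by rw [← h]; exact ea
        exact ⟨some none, by rw [sSn ea, sSn eb]⟩
    · rcases hj with hj | hj
      · have hj' : K.f j (φ a) = φ b := by rw [ha]; exact hj
        obtain ⟨e1, e2⟩ := Ev.srow_meet K φ τ hj' ht
        refine ⟨some (some (j, τ j a)), ?_⟩
        rw [s_some _ (fun h => absurd h da), s_some _ (fun h => absurd h hD), e1, e2]
      · have hj' : K.f j (φ b) = φ a := by rw [ha]; exact hj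
        obtain ⟨e1, e2⟩ := Ev.srow_meet K φ τ hj' (Ne.symm ht)
        refine ⟨some (some (j, τ j b)), ?_⟩
        rw [s_some _ (fun h => absurd h da), s_some _ (fun h => absurd h hD), e1, e2]

end

end Star

theorem pr_STAR : S_STAR := by
  intro N K V H o φ τ st h1 h2 h3 h4 h5 h6 h7 h8 h9 h10 h11
  refine Ev.rep_of_rows' K H (Star.row K o φ τ st) (Star.row_inj h1)
    (fun a b hab => Star.row_ne h1 h11 hab) ?_
  intro a b hab
  by_cases ha : φ a = o <;> by_cases hb : φ b = o
  · rw [Star.caseC h1 ha hb]
    exact h9 a b hab ha hb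
  · rw [Star.caseD h1 ha hb]
    exact h10 a b ha hb
  · have h := Star.caseD (K := K) (τ := τ) (st := st) h1 hb ha
    rw [SimpleGraph.adj_comm, h10 b a hb ha, ← h]
    constructor
    · rintro ⟨s, hs⟩; exact ⟨s, hs.symm⟩
    · rintro ⟨s, hs⟩; exact ⟨s, hs.symm⟩
  · by_cases he : φ a = φ b
    · exact ⟨fun _ => Star.caseB (H := H) h1 h3 ha he, fun _ => h2 a b hab he ha⟩
    · exact ⟨Star.caseA_mp h1 h4 ha hb he, Star.caseA_mpr h1 h4 h5 h6 h7 h8 ha hb he⟩

end Pool.Agent.Work.MP_12b649_co.Even
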