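import Mathlib
import Pool.Agent.Work.MP_12b649_co.Even.StmtsB

/-!
# TPET: triangle-free of maximal degree three
-/

namespace Pool.Agent.Work.MP_12b649_co.Even

namespace TPET

/-- Labels of the vertices of the Petersen graph. -/
inductive Lab
  | P
  | Q (i : Fin 3)
  | W (i : Fin 3) (b : Bool)
deriving DecidableEq, Fintype

/-- The vertex of the Petersen graph. -/
def e : Lab → Fin 10
  | .P => 0
  | .Q i => if i = 0 then 1 else if i = 1 then 4 else 5
  | .W i b => if i = 0 then (if b then 6 else 2) else if i = 1 then (if b then 9 else 3) else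
      (if b then 7 else 8)

/-- Adjacency of the labels. -/
def adjL : Lab → Lab → Bool
  | .P, .Q _ => true
  | .Q _, .P => true
  | .Q i, .W j _ => i == j
  | .W j _, .Q i => i == j
  | .W i a, .W j b => (i != j) && ((a == b) == !((i == 0 && j == 2) || (i == 2 && j == 0)))
  | _, _ => false

theorem adjL_eq : ∀ l m, adjL l m = petAdj (e l) (e m) := by decide

theorem adjL_symm : ∀ l m, adjL l m = adjL m l := by decide

theorem e_inj : ∀ l m, e l = e m → l = m := by decide

/-- The second bit of the label. -/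
def bit {T : Type} (H : SimpleGraph T) (w1 : T) (i : Fin 3) (x : T) : Prop :=
  if i = 0 then x ≠ w1 else if i = 1 then ¬ H.Adj x w1 else H.Adj x w1

theorem cases3 : ∀ i j : Fin 3, i < j →
    (i = 0 ∧ j = 1) ∨ (i = 0 ∧ j = 2) ∨ (i = 1 ∧ j = 2) := by decide

theorem main {T : Type} {H : SimpleGraph T} (hT2 : NoT2 H) (hC4 : NoC4 H)
    (htri : ∀ a b c, H.Adj a b → H.Adj a c → H.Adj b c → False)
    (hdeg : ∀ P q1 q2 q3 q4, H.Adj P q1 → H.Adj P q2 → H.Adj P q3 → H.Adj P q4 → q1 ≠ q2 →
      q1 ≠ q3 → q1 ≠ q4 → q2 ≠ q3 → q2 ≠ q4 → q3 ≠ q4 → False)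
    (P : T) (q : Fin 3 → T) (hq : ∀ i, H.Adj P (q i)) (hqi : Function.Injective q)
    (hall : ∀ x, x = P ∨ H.Adj P x ∨ ∃ y, H.Adj P y ∧ H.Adj y x)
    (w1 : T) (hw1 : H.Adj (q 0) w1) (hw1P : w1 ≠ P) : PetE H := by
  classical
  have nP : ∀ x, H.Adj P x → ∃ i, x = q i := by
    intro x hx
    by_contra hc
    have hc' : ∀ i, q i ≠ x := fun i h => hc ⟨i, h.symm⟩
    exact hdeg P (q 0) (q 1) (q 2) x (hq 0) (hq 1) (hq 2) hx (hqi.ne (by decide))
      (hqi.ne (by decide)) (hc' 0) (hqi.ne (by decide)) (hc' 1) (hc' 2)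
  have F1 : ∀ i j, ¬ H.Adj (q i) (q j) := fun i j h => htri P (q i) (q j) (hq i) (hq j) h
  obtain ⟨W, hW⟩ : ∃ W : Fin 3 → T → Prop, ∀ i x, W i x ↔ (H.Adj (q i) x ∧ x ≠ P) :=
    ⟨fun i x => H.Adj (q i) x ∧ x ≠ P, fun _ _ => Iff.rfl⟩
  have wa : ∀ {i x}, W i x → H.Adj (q i) x := fun {i x} h => ((hW i x).1 h).1
  have wP : ∀ {i x}, W i x → x ≠ P := fun {i x} h => ((hW i x).1 h).2
  have F2 : ∀ {i x}, W i x → ¬ H.Adj P x := fun {i x} h hx => htri P (q i) x (hq i) hx (wa h)
  have F3 : ∀ {i x} (j), W i x → x ≠ q j := by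
    intro i x j h he
    rw [he] at h
    exact F1 i j (wa h)
  have F4 : ∀ {i j x}, W i x → W j x → i = j := by
    intro i j x h h'
    by_contra hc
    rcases hC4 P (q i) x (q j) (hq i) (wa h) (wa h').symm (hq j).symm (wP h).symm
      (hqi.ne hc) with h1 | h1
    · exact F2 h h1
    · exact F1 i j h1
  have F5 : ∀ {i x y}, W i x → W i y → ¬ H.Adj x y := fun {i x y} hx hy h =>
    htri (q i) x y (wa hx) (wa hy) h
  have nq : ∀ {i j x}, W i x → i ≠ j → ¬ H.Adj (q j) x := by
    intro i j x h hij ha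
    exact hij (F4 h ((hW j x).2 ⟨ha, wP h⟩))
  have nq' : ∀ {i j x}, W i x → i ≠ j → ¬ H.Adj x (q j) := fun {i j x} h hij ha =>
    nq h hij ha.symm
  have dP : ∀ {i x}, W i x → Dd H x (q i) P := by
    intro i x h hc
    exact F2 h (hc.2 (hq i).symm).symm
  have wne : ∀ {i j x y}, W i x → W j y → i ≠ j → x ≠ y := by
    intro i j x y hx hy hij he
    rw [he] at hx
    exact hij (F4 hx hy)
  have c2 : ∀ {i j w w' u}, i ≠ j → W i w → W i w' → w ≠ w' → W j u →
      (H.Adj u w' ↔ ¬ H.Adj u w) := by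
    intro i j w w' u hij hw hw' hne hu
    constructor
    · intro h1 h2
      rcases hC4 w u w' (q i) h2.symm h1 (wa hw').symm (wa hw) hne (F3 i hu) with h3 | h3
      · exact F5 hw hw' h3
      · exact nq' hu hij.symm h3
    · intro hn
      have h1 := e2k2 hT2 (p1 := w) (q1 := q i) (p2 := u) (q2 := q j) (v := w') (w1 := P)
        (w2 := P) (wa hw).symm (wa hu).symm (fun h => hn h.symm) (nq' hw hij)
        (nq hu hij.symm) (F1 i j) (wP hw).symm (hq i).ne (dP hw) (wP hu).symm (hq j).ne (dP hu)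
        hne.symm (F3 i hw') (wne hw' hu hij) (F3 j hw')
      have h2 : Dd H w (q i) w' := fun hc => F5 hw hw' (hc.2 (wa hw'))
      have h3 := h1.1 h2
      by_contra h4
      exact h3 ⟨fun h => absurd h h4, fun h => absurd h (nq hw' hij)⟩
  have c4 : ∀ {i j k a b c}, i ≠ j → i ≠ k → j ≠ k → W i a → W j b → W k c →
      (H.Adj b c ↔ ¬ (H.Adj a b ↔ H.Adj a c)) := by
    intro i j k a b c hij hik hjk ha hb hc
    by_cases hab : H.Adj a b
    · have h1 := e2k2 hT2 (p1 := a) (q1 := b) (p2 := P) (q2 := q k) (v := c) (w1 := q i)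
        (w2 := q i) hab (hq k) (fun h => F2 ha h.symm) (nq' ha hik) (fun h => F2 hb h.symm)
        (nq' hb hjk) (F3 i ha).symm (F3 i hb).symm
        (fun h => nq' hb hij.symm (h.1 (wa ha).symm)) (hq i).ne.symm (hqi.ne hik)
        (fun h => F1 k i (h.1 (hq i))) (wne hc ha hik.symm) (wne hc hb hjk.symm) (wP hc)
        (F3 k hc)
      have h2 : Dd H P (q k) c := fun h => F2 hc (h.2 (wa hc))
      have h3 : Dd H a b c := h1.2 h2
      unfold Dd at h3
      tauto
    · have h1 := e2k2 hT2 (p1 := a) (q1 := q i) (p2 := b) (q2 := q j) (v := c) (w1 := P)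
        (w2 := P) (wa ha).symm (wa hb).symm hab (nq' ha hij) (nq hb hij.symm) (F1 i j)
        (wP ha).symm (hq i).ne (dP ha) (wP hb).symm (hq j).ne (dP hb)
        (wne hc ha hik.symm) (F3 i hc) (wne hc hb hjk.symm) (F3 j hc)
      have h2 := nq hc hik.symm
      have h3 := nq hc hjk.symm
      unfold Dd at h1
      tauto
  have hw0 : W 0 w1 := (hW 0 w1).2 ⟨hw1, hw1P⟩
  obtain ⟨C, hCP, hCQ, hCW⟩ : ∃ C : Lab → T → Prop, (∀ x, C .P x ↔ x = P) ∧
      (∀ i x, C (.Q i) x ↔ x = q i) ∧
      (∀ i b x, C (.W i b) x ↔ (W i x ∧ (b = true ↔ bit H w1 i x))) := by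
    refine ⟨fun l x => match l with
      | .P => x = P
      | .Q i => x = q i
      | .W i b => W i x ∧ (b = true ↔ bit H w1 i x), ?_, ?_, ?_⟩
    · intro x; exact Iff.rfl
    · intro i x; exact Iff.rfl
    · intro i b x; exact Iff.rfl
  have hex : ∀ x, ∃ l, C l x := by
    intro x
    by_cases hxP : x = P
    · exact ⟨.P, (hCP x).2 hxP⟩
    · rcases hall x with h | h | ⟨y, hy, hyx⟩
      · exact absurd h hxP
      · obtain ⟨i, hi⟩ := nP x h
        exact ⟨.Q i, (hCQ i x).2 hi⟩
      · obtain ⟨i, rfl⟩ := nP y hy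
        by_cases hb : bit H w1 i x
        · exact ⟨.W i true, (hCW i true x).2 ⟨(hW i x).2 ⟨hyx, hxP⟩, by simp [hb]⟩⟩
        · exact ⟨.W i false, (hCW i false x).2 ⟨(hW i x).2 ⟨hyx, hxP⟩, by simp [hb]⟩⟩
  have huniq : ∀ l x y, C l x → C l y → x = y := by
    intro l x y hx hy
    cases l with
    | P => rw [(hCP x).1 hx, (hCP y).1 hy]
    | Q i => rw [(hCQ i x).1 hx, (hCQ i y).1 hy]
    | W i b =>
      obtain ⟨hx1, hx2⟩ := (hCW i b x).1 hx
      obtain ⟨hy1, hy2⟩ := (hCW i b y).1 hy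
      have hbb : bit H w1 i x ↔ bit H w1 i y := hx2.symm.trans hy2
      by_contra hne
      by_cases hi0 : i = 0
      · subst hi0
        have e1 : bit H w1 0 x ↔ x ≠ w1 := by simp [bit]
        have e2 : bit H w1 0 y ↔ y ≠ w1 := by simp [bit]
        rw [e1, e2] at hbb
        by_cases hxw : x = w1
        · by_cases hyw : y = w1
          · exact hne (hxw.trans hyw.symm)
          · exact hbb.2 hyw hxw
        · exact hdeg (q 0) P w1 x y (hq 0).symm hw1 (wa hx1) (wa hy1) hw1P.symm (wP hx1).symm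
            (wP hy1).symm (Ne.symm hxw) (Ne.symm (hbb.1 hxw)) hne
      · have h5 := c2 hi0 hx1 hy1 hne hw0
        by_cases hi1 : i = 1
        · subst hi1
          have e1 : bit H w1 1 x ↔ ¬ H.Adj x w1 := by simp [bit]
          have e2 : bit H w1 1 y ↔ ¬ H.Adj y w1 := by simp [bit]
          rw [e1, e2] at hbb
          rw [H.adj_comm w1 y, H.adj_comm w1 x] at h5
          tauto
        · have e1 : bit H w1 i x ↔ H.Adj x w1 := by simp [bit, hi0, hi1]
          have e2 : bit H w1 i y ↔ H.Adj y w1 := by simp [bit, hi0, hi1]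
          rw [e1, e2] at hbb
          rw [H.adj_comm w1 y, H.adj_comm w1 x] at h5
          tauto
  have hww : ∀ i j a b x y, C (.W i a) x → C (.W j b) y → i < j →
      (H.Adj x y ↔ adjL (.W i a) (.W j b) = true) := by
    intro i j a b x y hx hy hij
    obtain ⟨hx1, hx2⟩ := (hCW i a x).1 hx
    obtain ⟨hy1, hy2⟩ := (hCW j b y).1 hy
    have k0 : ∀ j, j ≠ 0 → ∀ y, W j y → ∀ x, W 0 x → (H.Adj x y ↔ (x = w1 ↔ H.Adj y w1)) := by
      intro j hj y hy x hx
      by_cases hxw : x = w1
      · subst hxw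
        rw [H.adj_comm x y]
        simp
      · have h5 := c2 (Ne.symm hj) hw0 hx (Ne.symm hxw) hy
        rw [H.adj_comm x y, h5]
        simp [hxw]
    have k1 : ∀ x y, W 1 x → W 2 y → (H.Adj x y ↔ ¬ (H.Adj x w1 ↔ H.Adj y w1)) := by
      intro x y hx hy
      have h5 := c4 (i := 0) (j := 1) (k := 2) (by decide) (by decide) (by decide) hw0 hx hy
      rw [H.adj_comm w1 x, H.adj_comm w1 y] at h5
      exact h5
    have b0 : ∀ x, bit H w1 0 x ↔ x ≠ w1 := by intro x; simp [bit]
    have b1 : ∀ x, bit H w1 1 x ↔ ¬ H.Adj x w1 := by intro x; simp [bit]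
    have b2 : ∀ x, bit H w1 2 x ↔ H.Adj x w1 := by intro x; simp [bit]
    have hcases := cases3 i j hij
    rcases hcases with ⟨rfl, rfl⟩ | ⟨rfl, rfl⟩ | ⟨rfl, rfl⟩
    · rw [k0 1 (by decide) y hy1 x hx1]
      rw [b0] at hx2
      rw [b1] at hy2
      cases a <;> cases b <;> simp [adjL] at hx2 hy2 ⊢ <;> tauto
    · rw [k0 2 (by decide) y hy1 x hx1]
      rw [b0] at hx2
      rw [b2] at hy2
      cases a <;> cases b <;> simp [adjL] at hx2 hy2 ⊢ <;> tauto
    · rw [k1 x y hx1 hy1]
      rw [b1] at hx2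
      rw [b2] at hy2
      cases a <;> cases b <;> simp [adjL] at hx2 hy2 ⊢ <;> tauto
  have hadj : ∀ l m x y, C l x → C m y → (H.Adj x y ↔ adjL l m = true) := by
    intro l m x y hx hy
    cases l with
    | P =>
      rw [hCP] at hx
      subst hx
      cases m with
      | P =>
        rw [hCP] at hy
        subst hy
        simp [adjL]
      | Q j =>
        rw [hCQ] at hy
        subst hy
        simp [adjL, hq j]
      | W j b =>
        have := F2 ((hCW j b y).1 hy).1
        simp [adjL, this]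
    | Q i =>
      rw [hCQ] at hx
      subst hx
      cases m with
      | P =>
        rw [hCP] at hy
        subst hy
        simp [adjL, (hq i).symm]
      | Q j =>
        rw [hCQ] at hy
        subst hy
        simp [adjL, F1 i j]
      | W j b =>
        have hy1 := ((hCW j b y).1 hy).1
        by_cases hij : i = j
        · subst hij
          simp [adjL, wa hy1]
        · have := nq hy1 (Ne.symm hij)
          simp [adjL, this, hij]
    | W i a =>
      have hx1 := ((hCW i a x).1 hx).1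
      cases m with
      | P =>
        rw [hCP] at hy
        subst hy
        have := F2 hx1
        rw [H.adj_comm] at this
        simp [adjL, this]
      | Q j =>
        rw [hCQ] at hy
        subst hy
        by_cases hij : j = i
        · subst hij
          simp [adjL, (wa hx1).symm]
        · have := nq' hx1 (Ne.symm hij)
          simp [adjL, this, hij]
      | W j b =>
        have hy1 := ((hCW j b y).1 hy).1
        rcases lt_trichotomy i j with hij | hij | hij
        · exact hww i j a b x y hx hy hij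
        · subst hij
          have := F5 hx1 hy1
          simp [adjL, this]
        · rw [H.adj_comm, adjL_symm]
          exact hww j i b a y x hy hx hij
  choose g hg using hex
  refine ⟨fun x => e (g x), ?_, ?_⟩
  · intro u v huv
    have h1 : g u = g v := e_inj _ _ huv
    have h2 := hg u
    rw [h1] at h2
    exact huniq _ u v h2 (hg v)
  · intro u v
    rw [← adjL_eq]
    exact hadj _ _ u v (hg u) (hg v)

end TPET

theorem pr_TPET (h : S_TD3) : S_TPET := by
  intro T H hconn hT2 hC4 htw htri hdeg P q1 q2 q3 h1 h2 h3 h12 h13 h23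
  have hall := h T H hconn hT2 hC4 htw htri P q1 q2 q3 h1 h2 h3 h12 h13 h23
  have key : ∀ a b c : T, H.Adj P a → H.Adj P b → H.Adj P c → a ≠ b → a ≠ c → b ≠ c →
      (∃ w, H.Adj a w ∧ w ≠ P) → PetE H := by
    rintro a b c ha hb hc hab hac hbc ⟨w, hw, hwP⟩
    refine TPET.main hT2 hC4 htri hdeg P ![a, b, c] ?_ ?_ hall w hw hwP
    · intro i
      fin_cases i
      · exact ha
      · exact hb
      · exact hc
    · intro i j hij
      fin_cases i <;> fin_cases j <;> simp_all
  by_cases e1 : ∃ w, H.Adj q1 w ∧ w ≠ P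
  · exact Or.inr (key q1 q2 q3 h1 h2 h3 h12 h13 h23 e1)
  by_cases e2 : ∃ w, H.Adj q2 w ∧ w ≠ P
  · exact Or.inr (key q2 q1 q3 h2 h1 h3 h12.symm h23 h13 e2)
  refine Or.inl ⟨q1, q2, P, h12, fun v => ⟨fun hv => ?_, ?_⟩, fun v => ⟨fun hv => ?_, ?_⟩⟩
  · by_contra hc
    exact e1 ⟨v, hv, hc⟩
  · rintro rfl
    exact h1.symm
  · by_contra hc
    exact e2 ⟨v, hv, hc⟩
  · rintro rfl
    exact h2.symm

end Pool.Agent.Work.MP_12b649_co.Even
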