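import Mathlib
import Pool.Agent.Work.MP_12b649_co.Even.Stmts

/-!
# WORD: the order of the types, from the case of item WORDB (helper19)
-/

namespace Pool.Agent.Work.MP_12b649_co.Even

/-- The statement of item WORDB. -/
def S_WORDB : Prop :=
  ∀ (N L : ℕ) (W : Type) [Fintype W], Fintype.card W + 3 = N → Odd N → Odd L → 5 ≤ L → L ≤ N →
    ∀ (D1 D2 : W → Prop) (ε1 ε2 : Prop) (w0 : W), (D1 w0 ↔ ε1) → ¬ (D2 w0 ↔ ε2) →
    ∃ y : W → ℕ, Function.Injective y ∧ (∀ w, 1 ≤ y w ∧ y w < N ∧ y w ≠ L - 1) ∧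
      (∀ w w', Odd (y w) → y w' = y w + 1 → (D1 w ↔ D1 w')) ∧
      (∀ w, y w + 2 = L → (D1 w ↔ ε1)) ∧
      (∀ w w', Even (y w) → y w + 2 < L → y w' = y w + 1 → (D2 w ↔ D2 w')) ∧
      (∀ w, y w = 1 → (D2 w ↔ ε2)) ∧
      (∀ w w', Odd (y w) → L ≤ y w → y w' = y w + 1 → (D2 w ↔ D2 w'))

theorem pr_WORD (hB : S_WORDB) : S_WORD := by
  intro N L W _ hc hN hL h5 hLN D1 D2 ε1 ε2 w0 hw
  by_cases h1 : (D1 w0 ↔ ε1)
  · refine hB N L W hc hN hL h5 hLN D1 D2 ε1 ε2 w0 h1 fun h2 => hw ?_
    constructor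
    · intro h; exact h1.symm.trans (h.trans h2)
    · intro h; exact h1.trans (h.trans h2.symm)
  · have h2 : (D2 w0 ↔ ε2) := by
      by_contra h2
      exact hw (by tauto)
    obtain ⟨y, hinj, hr, ha, hb, hcc, hd, he⟩ :=
      hB N L W hc hN hL h5 hLN D2 D1 ε2 ε1 w0 h2 h1
    set z : W → ℕ := fun w => if y w < L - 1 then L - 1 - y w else y w with hz
    have hz1 : ∀ w, y w < L - 1 → z w = L - 1 - y w := fun w h => by rw [hz]; exact if_pos h
    have hz2 : ∀ w, ¬ y w < L - 1 → z w = y w := fun w h => by rw [hz]; exact if_neg h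
    have key : ∀ w, (y w < L - 1 ∧ z w = L - 1 - y w) ∨ (L ≤ y w ∧ z w = y w) := fun w => by
      by_cases h : y w < L - 1
      · exact Or.inl ⟨h, hz1 w h⟩
      · have := (hr w).2.2
        exact Or.inr ⟨by omega, hz2 w h⟩
    obtain ⟨l, hl⟩ := hL
    refine ⟨z, ?_, ?_, ?_, ?_, ?_, ?_, ?_⟩
    · intro w w' h
      apply hinj
      have k1 := key w
      have k2 := key w'
      have r1 := hr w
      have r2 := hr w'
      omega
    · intro w
      have k1 := key w
      have r1 := hr w
      omega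
    · intro w w' ho h
      have k1 := key w
      have k2 := key w'
      have r1 := hr w
      have r2 := hr w'
      obtain ⟨j, hj⟩ := ho
      by_cases hlt : y w < L - 1
      · have e1 : y w = y w' + 1 := by omega
        have e2 : Even (y w') := ⟨l - j - 1, by omega⟩
        exact (hcc w' w e2 (by omega) e1).symm
      · have e1 : y w' = y w + 1 := by omega
        exact he w w' ⟨j, by omega⟩ (by omega) e1
    · intro w h
      have k1 := key w
      have r1 := hr w
      exact hd w (by omega)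
    · intro w w' ho hlt h
      have k1 := key w
      have k2 := key w'
      have r1 := hr w
      have r2 := hr w'
      obtain ⟨j, hj⟩ := ho
      exact (ha w' w ⟨l - j - 1, by omega⟩ (by omega)).symm
    · intro w h
      have k1 := key w
      have r1 := hr w
      exact hb w (by omega)
    · intro w w' ho hlt h
      have k1 := key w
      have k2 := key w'
      have r1 := hr w
      have r2 := hr w'
      obtain ⟨j, hj⟩ := ho
      exact ha w w' ⟨j, by omega⟩ (by omega)

end Pool.Agent.Work.MP_12b649_co.Even
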