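import Mathlib
import Pool.Agent.Work.MP_12b649_co.Even.I_WORD
import Pool.Agent.Work.MP_12b649_co.Bd.B01

/-!
# WORDB: the order of the types (fallback proof)
-/

namespace Pool.Agent.Work.MP_12b649_co.Even

/-- The conditions on the positions. -/
def WOK {W : Type} (N L : ℕ) (e1 e2 : W → Prop) (y : W → ℕ) : Prop :=
  Function.Injective y ∧ (∀ w, 1 ≤ y w ∧ y w < N ∧ y w ≠ L - 1) ∧
    (∀ w w', Odd (y w) → y w' = y w + 1 → (e1 w ↔ e1 w')) ∧
    (∀ w, y w + 2 = L → e1 w) ∧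
    (∀ w w', Even (y w) → y w + 2 < L → y w' = y w + 1 → (e2 w ↔ e2 w')) ∧
    (∀ w, y w = 1 → e2 w) ∧
    (∀ w w', Odd (y w) → L ≤ y w → y w' = y w + 1 → (e2 w ↔ e2 w'))

/-- The conditions for types given by the bits of two numbers. -/
def OKn (n N L a b : ℕ) (y : ℕ → ℕ) : Prop :=
  (∀ i < n, ∀ j < n, y i = y j → i = j) ∧ (∀ i < n, 1 ≤ y i ∧ y i < N ∧ y i ≠ L - 1) ∧
    (∀ i < n, ∀ j < n, y i % 2 = 1 → y j = y i + 1 → a.testBit i = a.testBit j) ∧
    (∀ i < n, y i + 2 = L → a.testBit i = true) ∧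
    (∀ i < n, ∀ j < n, y i % 2 = 0 → y i + 2 < L → y j = y i + 1 → b.testBit i = b.testBit j) ∧
    (∀ i < n, y i = 1 → b.testBit i = true) ∧
    (∀ i < n, ∀ j < n, y i % 2 = 1 → L ≤ y i → y j = y i + 1 → b.testBit i = b.testBit j)

instance (n N L a b : ℕ) (y : ℕ → ℕ) : Decidable (OKn n N L a b y) := by
  unfold OKn
  refine @instDecidableAnd _ _ inferInstance (@instDecidableAnd _ _ inferInstance
    (@instDecidableAnd _ _ inferInstance (@instDecidableAnd _ _ inferInstance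
      (@instDecidableAnd _ _ inferInstance (@instDecidableAnd _ _ inferInstance
        inferInstance)))))

/-- Reading the tables. -/
def rd (T n a b i : ℕ) : ℕ := (T >>> (3 * n * (2 ^ n * a + b) + 3 * i)) % 8

def w2 : ℕ := 0xa01a00000000b013000000

def w45 : ℕ := 0xd4a000a5a000aca00035a00074a000a5a000aca000d5a000000000000000000000000000000000000000000000000000d4b000d530002ea0002ea00066a00066a000d4b000d53000000000000000000000000000000000000000000000000000c6b00035a000cab00035a00074a000c6b00074a000cab0000000000000000000000000000000000000000000000000003aa000a53000a8b0003aa0007aa000a53000a8b0007aa0000000000000000000000000000000000000000000000000003ab000a5a000aca0003ab0005ab000a5a000aca0005ab000000000000000000000000000000000000000000000000000c6a000353000cea00035300054b000c6a00054b000cea000000000000000000000000000000000000000000000000000d4a000d5a0002ab0002ab00046b00046b000d4a000d5a000000000000000000000000000000000000000000000000000d4b000a53000a8b00035300054b000a53000a8b000d53000000000000000000000000000000000000000000000000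

def w47 : ℕ := 0xb0a00085a0008ca00031a00070a00085a0008ca000b1a000000000000000000000000000000000000000000000000000a62000a5a00074c00035a000acc000a5a000b0b000b13000000000000000000000000000000000000000000000000000b0a00066c000aca0002ea000a5c000a63000aca000aa300000000000000000000000000000000000000000000000000068c00031a0002e200031a000a8c00085300088b000b1a00000000000000000000000000000000000000000000000000094a0002ec00035c00036300074a00066a00074a0005630000000000000000000000000000000000000000000000000004cc00085a00054c00031300066200085a00050b00095a00000000000000000000000000000000000000000000000000045c00046c0008ca0002a300070a0004630008ca0008ea00000000000000000000000000000000000000000000000000068d00046500050d0002d500088d00065500068d0008d5000000000000000000000000000000000000000000000000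

lemma base2 : ∀ a < 2 ^ 2, ∀ b < 2 ^ 2, a.testBit 0 = true → b.testBit 0 = false →
    OKn 2 5 5 a b (rd w2 2 a b) := by decide +kernel

lemma base45 : ∀ a < 2 ^ 4, ∀ b < 2 ^ 4, a.testBit 0 = true → b.testBit 0 = false →
    OKn 4 7 5 a b (rd w45 4 a b) := by decide +kernel

lemma base47 : ∀ a < 2 ^ 4, ∀ b < 2 ^ 4, a.testBit 0 = true → b.testBit 0 = false →
    OKn 4 7 7 a b (rd w47 4 a b) := by decide +kernel

/-- From the tables to types. -/
lemma from_table (n N L : ℕ) (T : ℕ) (hT : ∀ a < 2 ^ n, ∀ b < 2 ^ n, a.testBit 0 = true →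
    b.testBit 0 = false → OKn n N L a b (rd T n a b)) (W : Type) [Fintype W]
    (hn : Fintype.card W = n) (e1 e2 : W → Prop) (w0 : W) (h1 : e1 w0) (h2 : ¬ e2 w0) :
    ∃ y, WOK N L e1 e2 y := by
  classical
  have hpos : 0 < n := by
    rw [← hn]
    exact Fintype.card_pos_iff.2 ⟨w0⟩
  let f0 : W ≃ Fin n := Fintype.equivFinOfCardEq hn
  let f : W ≃ Fin n := f0.trans (Equiv.swap (f0 w0) ⟨0, hpos⟩)
  have hf : f w0 = ⟨0, hpos⟩ := by simp [f]
  obtain ⟨a, ha, hab⟩ := bits_exist n (fun k => ∃ w, (f w).val = k ∧ e1 w)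
  obtain ⟨b, hb, hbb⟩ := bits_exist n (fun k => ∃ w, (f w).val = k ∧ e2 w)
  have ea : ∀ w, (a.testBit (f w) = true ↔ e1 w) := by
    intro w
    rw [hab _ (f w).2]
    constructor
    · rintro ⟨w', h, h'⟩
      rwa [← f.injective (Fin.ext h)]
    · intro h
      exact ⟨w, rfl, h⟩
  have eb : ∀ w, (b.testBit (f w) = true ↔ e2 w) := by
    intro w
    rw [hbb _ (f w).2]
    constructor
    · rintro ⟨w', h, h'⟩
      rwa [← f.injective (Fin.ext h)]
    · intro h
      exact ⟨w, rfl, h⟩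
  have a0 : a.testBit 0 = true := by
    have := (ea w0).2 h1
    rwa [hf] at this
  have b0 : b.testBit 0 = false := by
    have := (not_congr (eb w0)).2 h2
    rw [hf] at this
    simpa using this
  obtain ⟨c1, c2, c3, c4, c5, c6, c7⟩ := hT a ha b hb a0 b0
  have conv : ∀ {x z : Bool}, x = z → (x = true ↔ z = true) := fun h => by rw [h]
  refine ⟨fun w => rd T n a b (f w), ?_, ?_, ?_, ?_, ?_, ?_, ?_⟩
  · intro w w' h
    exact f.injective (Fin.ext (c1 _ (f w).2 _ (f w').2 h))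
  · intro w
    exact c2 _ (f w).2
  · intro w w' h h'
    rw [← ea, ← ea]
    exact conv (c3 _ (f w).2 _ (f w').2 (Nat.odd_iff.1 h) h')
  · intro w h
    exact (ea w).1 (c4 _ (f w).2 h)
  · intro w w' h h' h''
    rw [← eb, ← eb]
    exact conv (c5 _ (f w).2 _ (f w').2 (Nat.even_iff.1 h) h' h'')
  · intro w h
    exact (eb w).1 (c6 _ (f w).2 h)
  · intro w w' h h' h''
    rw [← eb, ← eb]
    exact conv (c7 _ (f w).2 _ (f w').2 (Nat.odd_iff.1 h) h' h'')


/-- Adding two elements at the end. -/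
lemma step_end {W : Type} [DecidableEq W] (N L : ℕ) (hN : Odd N) (h7 : 7 ≤ N) (hL : L ≤ N - 2)
    (h5 : 5 ≤ L) (e1 e2 : W → Prop) (u u' : W) (huu : u ≠ u') (h1 : e1 u ↔ e1 u')
    (h2 : e2 u ↔ e2 u') (y : {w : W // w ≠ u ∧ w ≠ u'} → ℕ)
    (hy : WOK (N - 2) L (fun w => e1 w.val) (fun w => e2 w.val) y) :
    ∃ y, WOK N L e1 e2 y := by
  obtain ⟨c1, c2, c3, c4, c5, c6, c7⟩ := hy
  let z : W → ℕ := fun w => if h : w ≠ u ∧ w ≠ u' then y ⟨w, h⟩ else
    if w = u then N - 2 else N - 1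
  have zu : z u = N - 2 := by simp [z]
  have zu' : z u' = N - 1 := by simp [z, huu.symm]
  have zw : ∀ w (h : w ≠ u ∧ w ≠ u'), z w = y ⟨w, h⟩ := fun w h => by simp only [z, dif_pos h]
  have cases3 : ∀ w, (w = u ∧ z w = N - 2) ∨ (w = u' ∧ z w = N - 1) ∨
      ∃ h : w ≠ u ∧ w ≠ u', z w = y ⟨w, h⟩ := by
    intro w
    by_cases h : w = u
    · exact Or.inl ⟨h, by rw [h, zu]⟩
    · by_cases h' : w = u'
      · exact Or.inr (Or.inl ⟨h', by rw [h', zu']⟩)
      · exact Or.inr (Or.inr ⟨⟨h, h'⟩, zw w ⟨h, h'⟩⟩)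
  obtain ⟨r, hr⟩ := hN
  refine ⟨z, ?_, ?_, ?_, ?_, ?_, ?_, ?_⟩
  · intro w w' hw
    rcases cases3 w with ⟨e, ez⟩ | ⟨e, ez⟩ | ⟨h, ez⟩ <;>
      rcases cases3 w' with ⟨e', ez'⟩ | ⟨e', ez'⟩ | ⟨h', ez'⟩
    · rw [e, e']
    · omega
    · have := c2 ⟨w', h'⟩; omega
    · omega
    · rw [e, e']
    · have := c2 ⟨w', h'⟩; omega
    · have := c2 ⟨w, h⟩; omega
    · have := c2 ⟨w, h⟩; omega
    · exact congrArg Subtype.val (c1 (ez.symm.trans (hw.trans ez')))
  · intro w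
    rcases cases3 w with ⟨e, ez⟩ | ⟨e, ez⟩ | ⟨h, ez⟩
    · omega
    · omega
    · have := c2 ⟨w, h⟩; omega
  · intro w w' ho hw
    obtain ⟨s, hs⟩ := ho
    rcases cases3 w with ⟨e, ez⟩ | ⟨e, ez⟩ | ⟨h, ez⟩ <;>
      rcases cases3 w' with ⟨e', ez'⟩ | ⟨e', ez'⟩ | ⟨h', ez'⟩
    · omega
    · rw [e, e']; exact h1
    · have := c2 ⟨w', h'⟩; omega
    · omega
    · omega
    · have := c2 ⟨w', h'⟩; omega
    · have := c2 ⟨w, h⟩; omega
    · have := c2 ⟨w, h⟩; omega
    · exact c3 ⟨w, h⟩ ⟨w', h'⟩ ⟨s, by omega⟩ (by omega)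
  · intro w hw
    rcases cases3 w with ⟨e, ez⟩ | ⟨e, ez⟩ | ⟨h, ez⟩
    · omega
    · omega
    · exact c4 ⟨w, h⟩ (by omega)
  · intro w w' ho hl hw
    rcases cases3 w with ⟨e, ez⟩ | ⟨e, ez⟩ | ⟨h, ez⟩ <;>
      rcases cases3 w' with ⟨e', ez'⟩ | ⟨e', ez'⟩ | ⟨h', ez'⟩
    · omega
    · omega
    · omega
    · omega
    · omega
    · omega
    · omega
    · have := c2 ⟨w, h⟩; omega
    · exact c5 ⟨w, h⟩ ⟨w', h'⟩ (by rw [← ez]; exact ho) (by omega) (by omega)
  · intro w hw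
    rcases cases3 w with ⟨e, ez⟩ | ⟨e, ez⟩ | ⟨h, ez⟩
    · omega
    · omega
    · exact c6 ⟨w, h⟩ (by omega)
  · intro w w' ho hl hw
    obtain ⟨s, hs⟩ := ho
    rcases cases3 w with ⟨e, ez⟩ | ⟨e, ez⟩ | ⟨h, ez⟩ <;>
      rcases cases3 w' with ⟨e', ez'⟩ | ⟨e', ez'⟩ | ⟨h', ez'⟩
    · omega
    · rw [e, e']; exact h2
    · have := c2 ⟨w', h'⟩; omega
    · omega
    · omega
    · have := c2 ⟨w', h'⟩; omega
    · have := c2 ⟨w, h⟩; omega
    · have := c2 ⟨w, h⟩; omega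
    · exact c7 ⟨w, h⟩ ⟨w', h'⟩ ⟨s, by omega⟩ (by omega) (by omega)

/-- Inserting two elements at the places `k`, `k + 1`. -/
lemma step_mid {W : Type} [DecidableEq W] (N : ℕ) (hN : Odd N) (h7 : 7 ≤ N)
    (e1 e2 : W → Prop) (u u' : W) (huu : u ≠ u') (h1 : e1 u ↔ e1 u')
    (h2 : e2 u ↔ e2 u') (y : {w : W // w ≠ u ∧ w ≠ u'} → ℕ)
    (hy : WOK (N - 2) (N - 2) (fun w => e1 w.val) (fun w => e2 w.val) y) (k : ℕ) (hk : Odd k)
    (hkN : k + 4 ≤ N) (hk1 : k = 1 → e2 u) (hbef : ∀ w, y w + 1 = k → (e2 w.val ↔ e2 u))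
    (haft : ∀ w, y w = k → (e2 w.val ↔ e2 u)) :
    ∃ y, WOK N N e1 e2 y := by
  obtain ⟨c1, c2, c3, c4, c5, c6, c7⟩ := hy
  let z : W → ℕ := fun w => if h : w ≠ u ∧ w ≠ u' then
    (if y ⟨w, h⟩ < k then y ⟨w, h⟩ else y ⟨w, h⟩ + 2) else if w = u then k else k + 1
  have zu : z u = k := by simp [z]
  have zu' : z u' = k + 1 := by simp [z, huu.symm]
  have cases4 : ∀ w, (w = u ∧ z w = k) ∨ (w = u' ∧ z w = k + 1) ∨
      (∃ h : w ≠ u ∧ w ≠ u', y ⟨w, h⟩ < k ∧ z w = y ⟨w, h⟩) ∨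
      (∃ h : w ≠ u ∧ w ≠ u', k ≤ y ⟨w, h⟩ ∧ z w = y ⟨w, h⟩ + 2) := by
    intro w
    by_cases h : w = u
    · exact Or.inl ⟨h, by rw [h, zu]⟩
    · by_cases h' : w = u'
      · exact Or.inr (Or.inl ⟨h', by rw [h', zu']⟩)
      · by_cases hk : y ⟨w, h, h'⟩ < k
        · refine Or.inr (Or.inr (Or.inl ⟨⟨h, h'⟩, hk, ?_⟩))
          simp only [z, dif_pos (show w ≠ u ∧ w ≠ u' from ⟨h, h'⟩), if_pos hk]
        · refine Or.inr (Or.inr (Or.inr ⟨⟨h, h'⟩, by omega, ?_⟩))
          simp only [z, dif_pos (show w ≠ u ∧ w ≠ u' from ⟨h, h'⟩), if_neg hk]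
  obtain ⟨r, hr⟩ := hN
  obtain ⟨m, hm⟩ := hk
  refine ⟨z, ?_, ?_, ?_, ?_, ?_, ?_, ?_⟩
  · intro w w' hw
    rcases cases4 w with ⟨e, ez⟩ | ⟨e, ez⟩ | ⟨h, hb, ez⟩ | ⟨h, hb, ez⟩ <;>
      rcases cases4 w' with ⟨e', ez'⟩ | ⟨e', ez'⟩ | ⟨h', hb', ez'⟩ | ⟨h', hb', ez'⟩
    all_goals first
      | omega
      | (rw [e, e'])
      | exact congrArg Subtype.val (c1 (show y ⟨w, h⟩ = y ⟨w', h'⟩ by omega))
  · intro w
    rcases cases4 w with ⟨e, ez⟩ | ⟨e, ez⟩ | ⟨h, hb, ez⟩ | ⟨h, hb, ez⟩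
    · omega
    · omega
    · have := c2 ⟨w, h⟩; omega
    · have := c2 ⟨w, h⟩; omega
  · intro w w' ho hw
    obtain ⟨s, hs⟩ := ho
    rcases cases4 w with ⟨e, ez⟩ | ⟨e, ez⟩ | ⟨h, hb, ez⟩ | ⟨h, hb, ez⟩ <;>
      rcases cases4 w' with ⟨e', ez'⟩ | ⟨e', ez'⟩ | ⟨h', hb', ez'⟩ | ⟨h', hb', ez'⟩
    all_goals first
      | omega
      | (rw [e, e']; exact h1)
      | exact c3 ⟨w, h⟩ ⟨w', h'⟩ (Nat.odd_iff.2 (by omega)) (by omega)
  · intro w hw
    rcases cases4 w with ⟨e, ez⟩ | ⟨e, ez⟩ | ⟨h, hb, ez⟩ | ⟨h, hb, ez⟩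
    · omega
    · omega
    · exact c4 ⟨w, h⟩ (by omega)
    · exact c4 ⟨w, h⟩ (by omega)
  · intro w w' ho hl hw
    have ho' := Nat.even_iff.1 ho
    rcases cases4 w with ⟨e, ez⟩ | ⟨e, ez⟩ | ⟨h, hb, ez⟩ | ⟨h, hb, ez⟩ <;>
      rcases cases4 w' with ⟨e', ez'⟩ | ⟨e', ez'⟩ | ⟨h', hb', ez'⟩ | ⟨h', hb', ez'⟩
    all_goals first
      | omega
      | exact c5 ⟨w, h⟩ ⟨w', h'⟩ (Nat.even_iff.2 (by omega)) (by omega) (by omega)
      | (rw [e']; exact hbef ⟨w, h⟩ (by omega))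
      | (rw [e, ← h2]; exact (haft ⟨w', h'⟩ (by omega)).symm)
  · intro w hw
    rcases cases4 w with ⟨e, ez⟩ | ⟨e, ez⟩ | ⟨h, hb, ez⟩ | ⟨h, hb, ez⟩
    · rw [e]; exact hk1 (by omega)
    · omega
    · exact c6 ⟨w, h⟩ (by omega)
    · omega
  · intro w w' ho hl hw
    rcases cases4 w with ⟨e, ez⟩ | ⟨e, ez⟩ | ⟨h, hb, ez⟩ | ⟨h, hb, ez⟩
    · omega
    · omega
    · have := c2 ⟨w, h⟩; omega
    · have := c2 ⟨w, h⟩; omega

/-- The induction. -/
theorem wordInd (n : ℕ) : ∀ (N L : ℕ) (W : Type) [Fintype W], Fintype.card W = n → n + 3 = N →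
    Odd N → Odd L → 5 ≤ L → L ≤ N → ∀ (e1 e2 : W → Prop) (w0 : W), e1 w0 → ¬ e2 w0 →
    ∃ y, WOK N L e1 e2 y := by
  classical
  induction n using Nat.strong_induction_on with
  | _ n ih =>
    intro N L W _ hn hN oN oL h5 hLN e1 e2 w0 h1 h2
    obtain ⟨r, hr⟩ := oN
    obtain ⟨s, hs⟩ := oL
    by_cases hn4 : n ≤ 4
    · have : (n = 2 ∧ L = 5) ∨ (n = 4 ∧ L = 5) ∨ (n = 4 ∧ L = 7) := by omega
      rcases this with ⟨a, b⟩ | ⟨a, b⟩ | ⟨a, b⟩
      · subst a; subst b; subst hN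
        exact from_table 2 5 5 w2 base2 W hn e1 e2 w0 h1 h2
      · subst a; subst b; subst hN
        exact from_table 4 7 5 w45 base45 W hn e1 e2 w0 h1 h2
      · subst a; subst b; subst hN
        exact from_table 4 7 7 w47 base47 W hn e1 e2 w0 h1 h2
    · -- two elements of the same type
      have hcard : Fintype.card (Bool × Bool) < (Finset.univ.erase w0).card := by
        rw [Finset.card_erase_of_mem (Finset.mem_univ _), Finset.card_univ, hn]
        simp only [Fintype.card_prod, Fintype.card_bool]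
        omega
      obtain ⟨u, hu, u', hu', huu, hty⟩ := Finset.exists_ne_map_eq_of_card_lt_of_maps_to
        (s := Finset.univ.erase w0) (t := (Finset.univ : Finset (Bool × Bool)))
        (by simpa using hcard) (f := fun w => (decide (e1 w), decide (e2 w)))
        (fun w _ => Finset.mem_univ _)
      have hu0 : w0 ≠ u := fun h => by simp [h] at hu
      have hu0' : w0 ≠ u' := fun h => by simp [h] at hu'
      simp only [Prod.mk.injEq, decide_eq_decide] at hty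
      have hcW : Fintype.card {w : W // w ≠ u ∧ w ≠ u'} = n - 2 := by
        have e : (Finset.univ.filter (fun w : W => w ≠ u ∧ w ≠ u')) =
            (Finset.univ.erase u).erase u' := by
          ext w
          simp only [Finset.mem_filter, Finset.mem_univ, true_and, Finset.mem_erase, and_true]
          tauto
        rw [Fintype.card_subtype, e, Finset.card_erase_of_mem, Finset.card_erase_of_mem,
          Finset.card_univ, hn]
        · omega
        · exact Finset.mem_univ _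
        · simp [huu.symm]
      by_cases hLN' : L ≤ N - 2
      · obtain ⟨y, hy⟩ := ih (n - 2) (by omega) (N - 2) L {w : W // w ≠ u ∧ w ≠ u'} hcW
          (by omega) ⟨r - 1, by omega⟩ ⟨s, hs⟩ h5 hLN' (fun w => e1 w.val) (fun w => e2 w.val)
          ⟨w0, hu0, hu0'⟩ h1 h2
        exact step_end N L ⟨r, hr⟩ (by omega) hLN' h5 e1 e2 u u' huu hty.1 hty.2 y hy
      · have hLe : L = N := by omega
        subst hLe
        obtain ⟨y, hy⟩ := ih (n - 2) (by omega) (L - 2) (L - 2) {w : W // w ≠ u ∧ w ≠ u'} hcW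
          (by omega) ⟨r - 1, by omega⟩ ⟨r - 1, by omega⟩ (by omega) le_rfl
          (fun w => e1 w.val) (fun w => e2 w.val) ⟨w0, hu0, hu0'⟩ h1 h2
        obtain ⟨c1, c2, c3, c4, c5, c6, c7⟩ := id hy
        have r0 := c2 ⟨w0, hu0, hu0'⟩
        have n0 : y ⟨w0, hu0, hu0'⟩ ≠ 1 := fun h => h2 (c6 ⟨w0, hu0, hu0'⟩ h)
        by_cases h2u : e2 u
        · refine step_mid L ⟨r, hr⟩ (by omega) e1 e2 u u' huu hty.1 hty.2 y hy 1 ⟨0, rfl⟩
            (by omega) (fun _ => h2u) (fun w hw => ?_) (fun w hw => ?_)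
          · have := c2 w; omega
          · exact ⟨fun _ => h2u, fun _ => c6 w hw⟩
        · rcases Nat.even_or_odd (y ⟨w0, hu0, hu0'⟩) with hev | hod
          · have hev' := Nat.even_iff.1 hev
            refine step_mid L ⟨r, hr⟩ (by omega) e1 e2 u u' huu hty.1 hty.2 y hy
              (y ⟨w0, hu0, hu0'⟩ + 1) (Nat.odd_iff.2 (by omega)) (by omega) (fun h => by omega)
              (fun w hw => ?_) (fun w hw => ?_)
            · have : w = ⟨w0, hu0, hu0'⟩ := c1 (by omega)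
              rw [this]
              exact ⟨fun h => absurd h h2, fun h => absurd h h2u⟩
            · have := c5 ⟨w0, hu0, hu0'⟩ w hev (by omega) hw
              exact ⟨fun h => absurd (this.2 h) h2, fun h => absurd h h2u⟩
          · have hod' := Nat.odd_iff.1 hod
            refine step_mid L ⟨r, hr⟩ (by omega) e1 e2 u u' huu hty.1 hty.2 y hy
              (y ⟨w0, hu0, hu0'⟩) hod (by omega) (fun h => absurd h n0)
              (fun w hw => ?_) (fun w hw => ?_)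
            · have := c5 w ⟨w0, hu0, hu0'⟩ (Nat.even_iff.2 (by omega)) (by omega) (by omega)
              exact ⟨fun h => absurd (this.1 h) h2, fun h => absurd h h2u⟩
            · have : w = ⟨w0, hu0, hu0'⟩ := c1 hw
              rw [this]
              exact ⟨fun h => absurd h h2, fun h => absurd h h2u⟩

theorem wordB_fallback : S_WORDB := by
  intro N L W _ hc oN oL h5 hLN D1 D2 ε1 ε2 w0 h1 h2
  obtain ⟨y, c1, c2, c3, c4, c5, c6, c7⟩ := wordInd _ N L W rfl hc oN oL h5 hLN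
    (fun w => (D1 w ↔ ε1)) (fun w => (D2 w ↔ ε2)) w0 h1 h2
  refine ⟨y, c1, c2, fun w w' h h' => ?_, c4, fun w w' h h' h'' => ?_, c6,
    fun w w' h h' h'' => ?_⟩
  · have := c3 w w' h h'
    tauto
  · have := c5 w w' h h' h''
    tauto
  · have := c7 w w' h h' h''
    tauto

end Pool.Agent.Work.MP_12b649_co.Even
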