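import Mathlib
import Pool.Agent.Work.MP_12b649_co.Bd.B03
import Pool.Agent.Work.MP_12b649_co.Bd.B04

/-!
# Assembly of the odd and the even case
-/

namespace Pool.Agent.Work.MP_12b649_co.Even

open Pool.Agent.Work.MP_12b649_co

universe u

/-- A representation of the complement in the sense of agreements is a derangement
representation. -/
lemma isRep_of_rep {V : Type} (G : SimpleGraph V) {k : ℕ} (h : Rep Gᶜ k) :
    ∃ π : V → Equiv.Perm (Fin k), Odd.IsRep G π := by
  obtain ⟨π, h1, h2⟩ := h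
  refine ⟨π, h1, fun u v huv => ?_⟩
  have h3 := h2 u v huv
  rw [SimpleGraph.compl_adj] at h3
  constructor
  · intro hG i hi
    exact (h3.2 ⟨i, hi⟩).2 hG
  · intro hn
    by_contra hG
    obtain ⟨i, hi⟩ := h3.1 ⟨huv, hG⟩
    exact hn i hi

/-- The full answer. -/
theorem full (V : Type u) [Finite V] [Nonempty V] (G : SimpleGraph V)
    (h0 : ¬ Nonempty (G ≃g (⊥ : SimpleGraph (Fin 2))))
    (h1 : ¬ Nonempty (G ≃g (⊥ : SimpleGraph (Fin 3))))
    (h2 : ¬ Nonempty (G ≃g SimpleGraph.pathGraph 3)) :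
    ∃ k : ℕ, 0 < k ∧ k ≤ Nat.card V ∧ ∃ π : V → Equiv.Perm (Fin k), Odd.IsRep G π := by
  by_cases hG : _root_.Odd (Nat.card V) ∨ ∀ a b c, ¬ G.Adj a b → ¬ G.Adj b c → ¬ G.Adj a c
  · exact ⟨Nat.card V, Nat.card_pos, le_refl _, Odd.final_of Odd.thm_fat
      (Odd.thm_multi Odd.thm_pack Odd.thm_block) V G hG h0 h1 h2⟩
  · rw [not_or] at hG
    obtain ⟨hodd, htr⟩ := hG
    push Not at htr
    obtain ⟨a, b, c, hab, hbc, hac⟩ := htr
    have heven : Even (Nat.card V) := Nat.not_odd_iff_even.1 hodd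
    have nab : a ≠ b := by
      rintro rfl
      exact hbc hac
    have nbc : b ≠ c := by
      rintro rfl
      exact hab hac
    have nac : a ≠ c := hac.ne
    obtain ⟨e⟩ : Nonempty (V ≃ Fin (Nat.card V)) := ⟨Finite.equivFin V⟩
    have hcard : 4 ≤ Nat.card V := by
      have h3 : 3 ≤ Nat.card V := by
        have ha := (e a).2
        have hb := (e b).2
        have hc := (e c).2
        have h4 : (e a).1 ≠ (e b).1 := fun h => nab (e.injective (Fin.ext h))
        have h5 : (e b).1 ≠ (e c).1 := fun h => nbc (e.injective (Fin.ext h))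
        have h6 : (e a).1 ≠ (e c).1 := fun h => nac (e.injective (Fin.ext h))
        omega
      obtain ⟨r, hr⟩ := heven
      omega
    let G' : SimpleGraph (Fin (Nat.card V)) := G.map e.toEmbedding
    have iso : G ≃g G' := SimpleGraph.Iso.map e G
    have hadj : ∀ x y, G'.Adj (iso x) (iso y) ↔ G.Adj x y := fun x y => iso.map_adj_iff
    have hcl : ¬ Cluster G'ᶜ := by
      intro hC
      have k1 : (G'ᶜ).Adj (iso a) (iso b) := by
        rw [SimpleGraph.compl_adj]
        exact ⟨fun h => nab (iso.injective h), fun h => hab ((hadj a b).1 h)⟩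
      have k2 : (G'ᶜ).Adj (iso b) (iso c) := by
        rw [SimpleGraph.compl_adj]
        exact ⟨fun h => nbc (iso.injective h), fun h => hbc ((hadj b c).1 h)⟩
      have k3 := hC _ _ _ k1 k2 (fun h => nac (iso.injective h))
      rw [SimpleGraph.compl_adj] at k3
      exact k3.2 ((hadj a c).2 hac)
    obtain ⟨k, hk0, hk, hrep⟩ := even_all (Fin (Nat.card V)) G'ᶜ
      (by rw [Fintype.card_fin]; exact heven) (by rw [Fintype.card_fin]; exact hcard) hcl
    rw [Fintype.card_fin] at hk
    exact ⟨k, hk0, hk, Odd.rep_iso iso (isRep_of_rep G' hrep)⟩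

end Pool.Agent.Work.MP_12b649_co.Even
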