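import Pool.Agent.Work.MP_12b649_co.Even.Defs

/-!
# Rules for graphs without a configuration for the double merge
-/

namespace Pool.Agent.Work.MP_12b649_co.Even

variable {V : Type} {H : SimpleGraph V}

lemma Dd_iff {p q v : V} : Dd H p q v ↔ ¬ (H.Adj p v ↔ H.Adj q v) := Iff.rfl

/-- Connectedness in terms of sets closed under adjacency. -/
def Conn (H : SimpleGraph V) : Prop :=
  ∀ S : V → Prop, (∃ v, S v) → (∀ u v, S u → H.Adj u v → S v) → ∀ v, S v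

/-- The rule for an induced `2K_2`. -/
lemma e2k2 (hn : NoT2 H) {p1 q1 p2 q2 v w1 w2 : V} (h1 : H.Adj p1 q1) (h2 : H.Adj p2 q2)
    (a : ¬ H.Adj p1 p2) (b : ¬ H.Adj p1 q2) (c : ¬ H.Adj q1 p2) (d : ¬ H.Adj q1 q2)
    (w11 : w1 ≠ p1) (w12 : w1 ≠ q1) (w1d : Dd H p1 q1 w1)
    (w21 : w2 ≠ p2) (w22 : w2 ≠ q2) (w2d : Dd H p2 q2 w2)
    (v1 : v ≠ p1) (v2 : v ≠ q1) (v3 : v ≠ p2) (v4 : v ≠ q2) :
    (Dd H p1 q1 v ↔ Dd H p2 q2 v) := by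
  by_contra hc
  have a' : ¬ H.Adj p2 p1 := fun h => a h.symm
  have b' : ¬ H.Adj q2 p1 := fun h => b h.symm
  refine hn p1 q1 p2 q2 v ⟨h1, h2, ?_, ?_, ?_, ?_, v1, v2, v3, v4, ?_, ⟨w1, w11, w12, w1d⟩,
    ⟨w2, w21, w22, w2d⟩, ?_⟩
  · rintro rfl; exact c h1.symm
  · rintro rfl; exact d h1.symm
  · rintro rfl; exact a h1
  · rintro rfl; exact b h1
  · simp only [Dd, a, b, c, d]
  · simp only [Dd, a, b, c, d, a', b'] at hc ⊢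
    tauto

/-- The rule for an induced `C_4`. -/
lemma ec4 (hn : NoT2 H) {a1 b1 a2 b2 v : V} (h1 : H.Adj a1 b1) (h2 : H.Adj b1 a2)
    (h3 : H.Adj a2 b2) (h4 : H.Adj b2 a1) (n1 : a1 ≠ a2) (n2 : b1 ≠ b2) (m1 : ¬ H.Adj a1 a2)
    (m2 : ¬ H.Adj b1 b2) (v1 : v ≠ a1) (v2 : v ≠ b1) (v3 : v ≠ a2) (v4 : v ≠ b2) :
    (Dd H a1 b1 v ↔ Dd H a2 b2 v) := by
  by_contra hc
  have m1' : ¬ H.Adj a2 a1 := fun h => m1 h.symm
  have m2' : ¬ H.Adj b2 b1 := fun h => m2 h.symm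
  have h1' := h1.symm
  have h2' := h2.symm
  have h3' := h3.symm
  have h4' := h4.symm
  refine hn a1 b1 a2 b2 v ⟨h1, h3, n1, h4.ne', h2.ne, n2, v1, v2, v3, v4, ?_,
    ⟨a2, n1.symm, h2.ne', ?_⟩, ⟨a1, n1, h4.ne', ?_⟩, ?_⟩
  · simp only [Dd, m1, m2, h2, h4', true_iff, false_iff, iff_false, iff_true, not_true_eq_false,
      not_false_eq_true]
  · simp only [Dd, m1, h2]; tauto
  · simp only [Dd, m1', h4]; tauto
  · simp only [Dd, m1, m2, m1', m2', h1, h2, h3, h4, h1', h2', h3', h4'] at hc ⊢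
    tauto

/-- The rule for a `K_4`. -/
lemma ek4 (hn : NoT2 H) {p1 q1 p2 q2 v w1 w2 : V} (h1 : H.Adj p1 q1) (h2 : H.Adj p2 q2)
    (a : H.Adj p1 p2) (b : H.Adj p1 q2) (c : H.Adj q1 p2) (d : H.Adj q1 q2)
    (w11 : w1 ≠ p1) (w12 : w1 ≠ q1) (w1d : Dd H p1 q1 w1)
    (w21 : w2 ≠ p2) (w22 : w2 ≠ q2) (w2d : Dd H p2 q2 w2)
    (v1 : v ≠ p1) (v2 : v ≠ q1) (v3 : v ≠ p2) (v4 : v ≠ q2) :
    (Dd H p1 q1 v ↔ Dd H p2 q2 v) := by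
  by_contra hc
  have a' := a.symm
  have b' := b.symm
  refine hn p1 q1 p2 q2 v ⟨h1, h2, a.ne, b.ne, c.ne, d.ne, v1, v2, v3, v4, ?_,
    ⟨w1, w11, w12, w1d⟩, ⟨w2, w21, w22, w2d⟩, ?_⟩
  · simp only [Dd, a, b, c, d]
  · simp only [Dd, a, b, c, d, a', b'] at hc ⊢
    tauto

/-- The rule for a paw: triangle `p1 q1 p2`, pendant `q2` at `p2`. -/
lemma opaw (hn : NoT2 H) {p1 q1 p2 q2 v w1 : V} (h1 : H.Adj p1 q1) (h2 : H.Adj p2 q2)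
    (a : H.Adj p1 p2) (c : H.Adj q1 p2) (b : ¬ H.Adj p1 q2) (d : ¬ H.Adj q1 q2)
    (n1 : p1 ≠ q2) (n2 : q1 ≠ q2)
    (w11 : w1 ≠ p1) (w12 : w1 ≠ q1) (w1d : Dd H p1 q1 w1)
    (v1 : v ≠ p1) (v2 : v ≠ q1) (v3 : v ≠ p2) (v4 : v ≠ q2) :
    ¬ (Dd H p1 q1 v ↔ Dd H p2 q2 v) := by
  intro hc
  have a' := a.symm
  have b' : ¬ H.Adj q2 p1 := fun h => b h.symm
  refine hn p1 q1 p2 q2 v ⟨h1, h2, a.ne, n1, c.ne, n2, v1, v2, v3, v4, ?_,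
    ⟨w1, w11, w12, w1d⟩, ⟨p1, a.ne, n1, ?_⟩, ?_⟩
  · simp only [Dd, a, b, c, d]
  · simp only [Dd, a', b']; tauto
  · simp only [Dd, a, b, c, d, a', b'] at hc ⊢
    tauto

/-- Twins from the failure of non-twin. -/
lemma tw_of {u v : V} (h : H.Adj u v) (h' : ∀ w, w ≠ u → w ≠ v → ¬ Dd H u v w) : Tw H u v := by
  refine ⟨h, fun w h1 h2 => ?_⟩
  have := h' w h1 h2
  simpa only [Dd, not_not] using this

lemma nt_of {u v : V} (h : H.Adj u v) (h' : ¬ Tw H u v) : ∃ w, w ≠ u ∧ w ≠ v ∧ Dd H u v w := by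
  by_contra hc
  apply h'
  apply tw_of h
  intro w h1 h2 h3
  exact hc ⟨w, h1, h2, h3⟩

end Pool.Agent.Work.MP_12b649_co.Even
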